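import Pool.Agent.Helper91.Crit.Clo

/-!
# Weighted sums over independent sets
-/

set_option autoImplicit false

open Finset

namespace Pool.Agent.Helper91.Crit.Clo

open Classical

variable {ι : Type*} [Fintype ι] [DecidableEq ι] (M : Clo ι)

/-- The weighted number of sets independent modulo `L`. -/
noncomputable def X (v : ℝ) (L : Finset ι) : ℝ :=
  ∑ R ∈ Finset.univ.filter (fun R : Finset ι => M.IndMod L R), v ^ R.card

theorem X_pos (v : ℝ) (hv : 0 ≤ v) (L : Finset ι) : 0 < M.X v L := by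
  unfold X
  have h1 : (∅ : Finset ι) ∈ Finset.univ.filter (fun R : Finset ι => M.IndMod L R) := by
    rw [Finset.mem_filter]
    refine ⟨Finset.mem_univ _, ?_⟩
    intro i hi
    exact absurd hi (Finset.notMem_empty i)
  have h2 : v ^ (∅ : Finset ι).card ≤
      ∑ R ∈ Finset.univ.filter (fun R : Finset ι => M.IndMod L R), v ^ R.card :=
    Finset.single_le_sum (f := fun R : Finset ι => v ^ R.card) (fun _ _ => by positivity) h1
  simp only [Finset.card_empty, pow_zero] at h2
  linarith

variable {M}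

/-- The decomposition into the part without coloops modulo `L` and the rest. -/
theorem sum_noCol_le (v : ℝ) (hv : 0 ≤ v) (L : Finset ι) :
    ∑ D ∈ Finset.univ.filter (fun D : Finset ι => M.Ind D ∧ M.NoCol L D),
      v ^ D.card * M.X v (L ∪ D) ≤ M.X v ∅ := by
  have h1 : ∀ D ∈ Finset.univ.filter (fun D : Finset ι => M.Ind D ∧ M.NoCol L D),
      v ^ D.card * M.X v (L ∪ D) =
      ∑ R ∈ Finset.univ.filter (fun R : Finset ι => M.IndMod (L ∪ D) R), v ^ (D ∪ R).card := by
    intro D _
    unfold X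
    rw [Finset.mul_sum]
    apply Finset.sum_congr rfl
    intro R hR
    rw [Finset.mem_filter] at hR
    have hd : Disjoint D R := by
      rw [Finset.disjoint_left]
      intro i hi hiR
      exact hR.2 i hiR (M.sub _ _ (Finset.mem_union_left _ (Finset.mem_union_right _ hi)))
    rw [Finset.card_union_of_disjoint hd, pow_add]
  rw [Finset.sum_congr rfl h1, Finset.sum_sigma']
  unfold X
  have hrec : ∀ D R : Finset ι, M.NoCol L D → M.IndMod (L ∪ D) R →
      (D ∪ R).filter (fun i => i ∈ M.cl (L ∪ (D ∪ R).erase i)) = D := by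
    intro D R hD hR
    ext i
    rw [Finset.mem_filter]
    constructor
    · rintro ⟨h2, h3⟩
      by_contra hiD
      have hiR : i ∈ R := (Finset.mem_union.mp h2).resolve_left hiD
      apply hR i hiR
      apply M.mono _ h3
      intro x hx
      rcases Finset.mem_union.mp hx with h4 | h4
      · exact Finset.mem_union_left _ (Finset.mem_union_left _ h4)
      · rw [Finset.mem_erase] at h4
        rcases Finset.mem_union.mp h4.2 with h5 | h5
        · exact Finset.mem_union_left _ (Finset.mem_union_right _ h5)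
        · exact Finset.mem_union_right _ (Finset.mem_erase.mpr ⟨h4.1, h5⟩)
    · intro hi
      refine ⟨Finset.mem_union_left _ hi, ?_⟩
      apply M.mono _ (hD i hi)
      apply Finset.union_subset_union subset_rfl
      exact Finset.erase_subset_erase i Finset.subset_union_left
  have hinj : ∀ x ∈ (Finset.univ.filter (fun D : Finset ι => M.Ind D ∧ M.NoCol L D)).sigma
      (fun D => Finset.univ.filter (fun R : Finset ι => M.IndMod (L ∪ D) R)),
      ∀ y ∈ (Finset.univ.filter (fun D : Finset ι => M.Ind D ∧ M.NoCol L D)).sigma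
      (fun D => Finset.univ.filter (fun R : Finset ι => M.IndMod (L ∪ D) R)),
      x.1 ∪ x.2 = y.1 ∪ y.2 → x = y := by
    rintro ⟨D, R⟩ hx ⟨D', R'⟩ hy h
    rw [Finset.mem_sigma, Finset.mem_filter, Finset.mem_filter] at hx hy
    dsimp only at hx hy h
    have h2 := hrec D R hx.1.2.2 hx.2.2
    have h3 := hrec D' R' hy.1.2.2 hy.2.2
    have h4 : D = D' := by
      rw [← h2, ← h3, h]
    subst h4
    have h5 : ∀ R : Finset ι, M.IndMod (L ∪ D) R → R = (D ∪ R) \ D := by
      intro R hR
      ext i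
      rw [Finset.mem_sdiff, Finset.mem_union]
      constructor
      · intro hi
        refine ⟨Or.inr hi, ?_⟩
        intro hiD
        exact hR i hi (M.sub _ _ (Finset.mem_union_left _ (Finset.mem_union_right _ hiD)))
      · rintro ⟨h6, h7⟩
        exact h6.resolve_left h7
    have h6 : R = R' := by
      rw [h5 R hx.2.2, h5 R' hy.2.2, h]
    rw [h6]
  rw [← Finset.sum_image (g := fun x : (Σ _ : Finset ι, Finset ι) => x.1 ∪ x.2)
    (f := fun R : Finset ι => v ^ R.card) (fun x hx y hy h => hinj x hx y hy h)]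
  apply Finset.sum_le_sum_of_subset_of_nonneg
  · intro R hR
    rw [Finset.mem_image] at hR
    obtain ⟨⟨D, R'⟩, hx, hR⟩ := hR
    rw [Finset.mem_sigma, Finset.mem_filter, Finset.mem_filter] at hx
    dsimp only at hx hR
    rw [Finset.mem_filter]
    refine ⟨Finset.mem_univ _, ?_⟩
    rw [indMod_empty, ← hR]
    exact hx.1.2.1.union (hx.2.2.mono Finset.subset_union_right)
  · intro R _ _
    positivity

/-- **Few independent sets without coloops modulo `L`.** -/
theorem noCol_sum (v : ℝ) (hv : 0 ≤ v)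
    (hE : ∀ L : Finset ι, M.X v ∅ ≤ 2 ^ L.card * M.X v L) (L : Finset ι) :
    ∑ D ∈ Finset.univ.filter (fun D : Finset ι => M.Ind D ∧ M.NoCol L D),
      (v / 2) ^ D.card ≤ 2 ^ L.card := by
  have h1 := sum_noCol_le (M := M) v hv L
  have hX := M.X_pos v hv ∅
  have h2 : ∀ D ∈ Finset.univ.filter (fun D : Finset ι => M.Ind D ∧ M.NoCol L D),
      (v / 2) ^ D.card * M.X v ∅ ≤ 2 ^ L.card * (v ^ D.card * M.X v (L ∪ D)) := by
    intro D _
    have h3 := hE (L ∪ D)
    have h4 : (2 : ℝ) ^ (L ∪ D).card ≤ 2 ^ L.card * 2 ^ D.card := by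
      rw [← pow_add]
      exact pow_le_pow_right₀ (by norm_num) (Finset.card_union_le _ _)
    have h5 : M.X v ∅ ≤ 2 ^ L.card * 2 ^ D.card * M.X v (L ∪ D) :=
      h3.trans (mul_le_mul_of_nonneg_right h4 (M.X_pos v hv _).le)
    have h6 : (v / 2) ^ D.card * M.X v ∅ ≤
        (v / 2) ^ D.card * (2 ^ L.card * 2 ^ D.card * M.X v (L ∪ D)) :=
      mul_le_mul_of_nonneg_left h5 (by positivity)
    refine h6.trans (le_of_eq ?_)
    rw [div_pow]
    field_simp
  have h3 := Finset.sum_le_sum h2
  rw [← Finset.sum_mul, ← Finset.mul_sum] at h3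
  have h4 : (2 : ℝ) ^ L.card * ∑ D ∈ Finset.univ.filter (fun D : Finset ι => M.Ind D ∧ M.NoCol L D),
      v ^ D.card * M.X v (L ∪ D) ≤ 2 ^ L.card * M.X v ∅ :=
    mul_le_mul_of_nonneg_left h1 (by positivity)
  exact le_of_mul_le_mul_right (h3.trans h4) hX

/-- **Few covered sets.** -/
theorem cov_sum_aux (y : ℝ) (hy : 0 ≤ y) (hy1 : y ≤ 4)
    (hA : ∀ L : Finset ι, ∑ D ∈ Finset.univ.filter (fun D : Finset ι => M.Ind D ∧ M.NoCol L D),
      y ^ D.card ≤ 2 ^ L.card) (n : ℕ) :
    ∀ L : Finset ι, ∑ B ∈ Finset.univ.filter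
      (fun B : Finset ι => M.Ind B ∧ Disjoint L B ∧ M.Cov L B ∧ B.card ≤ n),
        ((y / 4) ^ 2) ^ B.card ≤ 2 ^ L.card := by
  induction n with
  | zero =>
    intro L
    have h1 : ∀ B ∈ Finset.univ.filter
      (fun B : Finset ι => M.Ind B ∧ Disjoint L B ∧ M.Cov L B ∧ B.card ≤ 0),
        B ∈ ({∅} : Finset (Finset ι)) := by
      intro B hB
      rw [Finset.mem_filter] at hB
      have h2 := hB.2.2.2.2
      rw [Finset.mem_singleton]
      exact Finset.card_eq_zero.mp (by omega)
    have h2 : ∑ B ∈ Finset.univ.filter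
      (fun B : Finset ι => M.Ind B ∧ Disjoint L B ∧ M.Cov L B ∧ B.card ≤ 0),
        ((y / 4) ^ 2) ^ B.card ≤ ∑ B ∈ ({∅} : Finset (Finset ι)), ((y / 4) ^ 2) ^ B.card :=
      Finset.sum_le_sum_of_subset_of_nonneg h1 (fun _ _ _ => by positivity)
    rw [Finset.sum_singleton, Finset.card_empty, pow_zero] at h2
    exact h2.trans (one_le_pow₀ (by norm_num))
  | succ n ih =>
    intro L
    set S : Finset (Finset ι) := Finset.univ.filter
      (fun B : Finset ι => M.Ind B ∧ Disjoint L B ∧ M.Cov L B ∧ B.card ≤ n + 1) with hS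
    set DD : Finset (Finset ι) := Finset.univ.filter
      (fun D : Finset ι => M.Ind D ∧ M.NoCol L D) with hDD
    -- remove the empty set
    have h1 : ∑ B ∈ S, ((y / 4) ^ 2) ^ B.card ≤
        1 + ∑ B ∈ S.filter (fun B => B.Nonempty), ((y / 4) ^ 2) ^ B.card := by
      rw [← Finset.sum_filter_add_sum_filter_not S (fun B => B.Nonempty), add_comm]
      apply add_le_add_left
      have h2 : S.filter (fun B => ¬ B.Nonempty) ⊆ {∅} := by
        intro B hB
        rw [Finset.mem_filter, Finset.not_nonempty_iff_eq_empty] at hB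
        rw [Finset.mem_singleton]
        exact hB.2
      have h3 := Finset.sum_le_sum_of_subset_of_nonneg (f := fun B : Finset ι =>
        ((y / 4) ^ 2) ^ B.card) h2 (fun _ _ _ => by positivity)
      rw [Finset.sum_singleton, Finset.card_empty, pow_zero] at h3
      exact h3
    -- the structure map
    have hstep : ∀ B ∈ S.filter (fun B => B.Nonempty), ∃ D K B2 : Finset ι,
        K ⊆ D ∧ B = K ∪ B2 ∧ Disjoint D B2 ∧ M.Ind D ∧ M.NoCol L D ∧
        D.card ≤ 2 * K.card ∧ M.Ind B2 ∧ M.Cov D B2 ∧ K.Nonempty ∧ B.card ≤ n + 1 := by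
      intro B hB
      rw [Finset.mem_filter, hS, Finset.mem_filter] at hB
      obtain ⟨⟨_, h3, h4, h5, h6⟩, h7⟩ := hB
      obtain ⟨D, K, B2, a1, a2, a3, a4, a5, a6, a7, a8, a9⟩ := cov_step h3 h4 h5
      exact ⟨D, K, B2, a1, a2, a3, a4, a5, a6, a7, a8, a9 h7, h6⟩
    choose! Df Kf Bf hf using hstep
    set T : Finset (Σ _ : Finset ι, Finset ι × Finset ι) :=
      (DD.filter (fun D => D.Nonempty)).sigma (fun D => D.powerset ×ˢ Finset.univ.filter
        (fun B : Finset ι => M.Ind B ∧ Disjoint D B ∧ M.Cov D B ∧ B.card ≤ n)) with hT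
    set g : (Σ _ : Finset ι, Finset ι × Finset ι) → ℝ :=
      fun x => (y / 4) ^ x.1.card * ((y / 4) ^ 2) ^ x.2.2.card with hg
    set τ : Finset ι → (Σ _ : Finset ι, Finset ι × Finset ι) :=
      fun B => ⟨Df B, (Kf B, Bf B)⟩ with hτ
    have hy0 : 0 ≤ y / 4 := by positivity
    have hy2 : y / 4 ≤ 1 := by linarith
    have h2 : ∀ B ∈ S.filter (fun B => B.Nonempty), ((y / 4) ^ 2) ^ B.card ≤ g (τ B) := by
      intro B hB
      obtain ⟨a1, a2, a3, a4, a5, a6, a7, a8, a9, a10⟩ := hf B hB
      have hd : Disjoint (Kf B) (Bf B) := a3.mono_left a1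
      have h3 : B.card = (Kf B).card + (Bf B).card := by
        conv_lhs => rw [a2]
        exact Finset.card_union_of_disjoint hd
      rw [h3, pow_add]
      show _ ≤ (y / 4) ^ (Df B).card * ((y / 4) ^ 2) ^ (Bf B).card
      apply mul_le_mul_of_nonneg_right _ (by positivity)
      rw [← pow_mul]
      exact pow_le_pow_of_le_one hy0 hy2 a6
    have h3 : ∀ B ∈ S.filter (fun B => B.Nonempty), τ B ∈ T := by
      intro B hB
      obtain ⟨a1, a2, a3, a4, a5, a6, a7, a8, a9, a10⟩ := hf B hB
      have hd : Disjoint (Kf B) (Bf B) := a3.mono_left a1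
      have h4 : B.card = (Kf B).card + (Bf B).card := by
        conv_lhs => rw [a2]
        exact Finset.card_union_of_disjoint hd
      have h5 := Finset.card_pos.mpr a9
      rw [hT, Finset.mem_sigma, Finset.mem_filter, hDD, Finset.mem_filter, Finset.mem_product,
        Finset.mem_powerset, Finset.mem_filter]
      refine ⟨⟨⟨Finset.mem_univ _, a4, a5⟩, a9.mono a1⟩, a1, Finset.mem_univ _, a7, a3, a8, ?_⟩
      show (Bf B).card ≤ n
      omega
    have h4 : ∀ B ∈ S.filter (fun B => B.Nonempty), ∀ B' ∈ S.filter (fun B => B.Nonempty),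
        τ B = τ B' → B = B' := by
      intro B hB B' hB' h
      obtain ⟨_, a2, _⟩ := hf B hB
      obtain ⟨_, b2, _⟩ := hf B' hB'
      have h5 : Kf B = Kf B' := congrArg (fun x : (Σ _ : Finset ι, Finset ι × Finset ι) => x.2.1) h
      have h6 : Bf B = Bf B' := congrArg (fun x : (Σ _ : Finset ι, Finset ι × Finset ι) => x.2.2) h
      rw [a2, b2, h5, h6]
    have h5 : ∑ B ∈ S.filter (fun B => B.Nonempty), ((y / 4) ^ 2) ^ B.card ≤ ∑ x ∈ T, g x := by
      calc ∑ B ∈ S.filter (fun B => B.Nonempty), ((y / 4) ^ 2) ^ B.card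
          ≤ ∑ B ∈ S.filter (fun B => B.Nonempty), g (τ B) := Finset.sum_le_sum h2
        _ = ∑ x ∈ (S.filter (fun B => B.Nonempty)).image τ, g x :=
            (Finset.sum_image (fun B hB B' hB' h => h4 B hB B' hB' h)).symm
        _ ≤ ∑ x ∈ T, g x := by
            apply Finset.sum_le_sum_of_subset_of_nonneg
            · intro x hx
              rw [Finset.mem_image] at hx
              obtain ⟨B, hB, rfl⟩ := hx
              exact h3 B hB
            · intro x _ _
              show 0 ≤ (y / 4) ^ x.1.card * ((y / 4) ^ 2) ^ x.2.2.card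
              positivity
    have h6 : ∑ x ∈ T, g x ≤ ∑ D ∈ DD.filter (fun D => D.Nonempty), y ^ D.card := by
      rw [hT, Finset.sum_sigma]
      apply Finset.sum_le_sum
      intro D _
      rw [Finset.sum_product]
      show ∑ K ∈ D.powerset, ∑ B ∈ Finset.univ.filter
        (fun B : Finset ι => M.Ind B ∧ Disjoint D B ∧ M.Cov D B ∧ B.card ≤ n),
        (y / 4) ^ D.card * ((y / 4) ^ 2) ^ B.card ≤ y ^ D.card
      have h7 : ∀ K ∈ D.powerset, ∑ B ∈ Finset.univ.filter
          (fun B : Finset ι => M.Ind B ∧ Disjoint D B ∧ M.Cov D B ∧ B.card ≤ n),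
          (y / 4) ^ D.card * ((y / 4) ^ 2) ^ B.card ≤ (y / 4) ^ D.card * 2 ^ D.card := by
        intro K _
        rw [← Finset.mul_sum]
        exact mul_le_mul_of_nonneg_left (ih D) (by positivity)
      refine (Finset.sum_le_sum h7).trans ?_
      rw [Finset.sum_const, Finset.card_powerset, nsmul_eq_mul]
      push_cast
      rw [← mul_pow, ← mul_pow]
      apply le_of_eq
      congr 1
      ring
    have h7 : 1 + ∑ D ∈ DD.filter (fun D => D.Nonempty), y ^ D.card ≤ ∑ D ∈ DD, y ^ D.card := by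
      rw [← Finset.sum_filter_add_sum_filter_not DD (fun D => D.Nonempty), add_comm]
      apply add_le_add_right
      have h8 : (∅ : Finset ι) ∈ DD.filter (fun D => ¬ D.Nonempty) := by
        rw [Finset.mem_filter, hDD, Finset.mem_filter]
        refine ⟨⟨Finset.mem_univ _, ind_empty, ?_⟩, Finset.not_nonempty_empty⟩
        intro i hi
        exact absurd hi (Finset.notMem_empty i)
      have h9 := Finset.single_le_sum (f := fun D : Finset ι => y ^ D.card)
        (fun _ _ => by positivity) h8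
      simpa using h9
    have h8 := hA L
    linarith

/-- **Few covered sets.** -/
theorem cov_sum (y : ℝ) (hy : 0 ≤ y) (hy1 : y ≤ 4)
    (hA : ∀ L : Finset ι, ∑ D ∈ Finset.univ.filter (fun D : Finset ι => M.Ind D ∧ M.NoCol L D),
      y ^ D.card ≤ 2 ^ L.card) (L : Finset ι) (P : Finset (Finset ι))
    (hP : ∀ B ∈ P, M.Ind B ∧ Disjoint L B ∧ M.Cov L B) (s : ℝ) (hs0 : 0 ≤ s)
    (hs : s ≤ (y / 4) ^ 2) :
    ∑ B ∈ P, s ^ B.card ≤ 2 ^ L.card := by
  refine le_trans ?_ (cov_sum_aux y hy hy1 hA (Fintype.card ι) L)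
  calc ∑ B ∈ P, s ^ B.card ≤ ∑ B ∈ P, ((y / 4) ^ 2) ^ B.card :=
        Finset.sum_le_sum (fun B _ => pow_le_pow_left₀ hs0 hs _)
    _ ≤ _ := by
        apply Finset.sum_le_sum_of_subset_of_nonneg
        · intro B hB
          rw [Finset.mem_filter]
          obtain ⟨h1, h2, h3⟩ := hP B hB
          exact ⟨Finset.mem_univ _, h1, h2, h3, Finset.card_le_univ B⟩
        · intro B _ _
          positivity

end Pool.Agent.Helper91.Crit.Clo
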