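import Pool.Agent.Helper35.Cq.Defs

/-!
# From `HasClique` to a minor isomorphic to the cycle matroid of a complete graph
-/

set_option autoImplicit false

open Finset Module
open scoped Matroid

namespace Pool.Agent.Helper91.Crit

section Graph

variable {m : ℕ} {F : Type*} [Field F]

/-- Edge vectors are independent exactly when the edges form a forest. -/
theorem linearIndepOn_iff_acyclic (U : Sym2 (Fin m) → (Fin m → F)) (A : Set (Sym2 (Fin m)))
    (hA : A ⊆ (⊤ : SimpleGraph (Fin m)).edgeSet)
    (hU : ∀ i j, s(i, j) ∈ A → ∃ c : F, c ≠ 0 ∧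
      U s(i, j) = c • ((Pi.single i 1 : Fin m → F) - Pi.single j 1)) :
    LinearIndepOn F U A ↔ (SimpleGraph.fromEdgeSet A).IsAcyclic := by
  classical
  rw [linearIndepOn_iff_notMem_span, SimpleGraph.isAcyclic_iff_forall_isBridge]
  have hne : ∀ i j, s(i, j) ∈ A → i ≠ j := by
    intro i j h
    have := hA h
    rw [SimpleGraph.mem_edgeSet, SimpleGraph.top_adj] at this
    exact this
  have hedge : (SimpleGraph.fromEdgeSet A).edgeSet = A := by
    rw [SimpleGraph.edgeSet_fromEdgeSet]
    ext s
    induction s using Sym2.ind with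
    | _ i j =>
    constructor
    · intro h; exact h.1
    · intro h
      refine ⟨h, ?_⟩
      intro h'
      exact hne i j h (by simpa using h')
  rw [hedge]
  apply forall_congr'
  intro s
  induction s using Sym2.ind with
  | _ i j =>
  apply forall_congr'
  intro hs
  rw [SimpleGraph.isBridge_iff]
  apply not_congr
  have hadj : ∀ x y, ((SimpleGraph.fromEdgeSet A).deleteEdges {s(i, j)}).Adj x y ↔
      s(x, y) ∈ A ∧ s(x, y) ≠ s(i, j) := by
    intro x y
    rw [SimpleGraph.deleteEdges_adj, SimpleGraph.fromEdgeSet_adj]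
    constructor
    · rintro ⟨⟨h1, _⟩, h2⟩
      exact ⟨h1, fun h => h2 (by simpa using h)⟩
    · rintro ⟨h1, h2⟩
      exact ⟨⟨h1, hne x y h1⟩, fun h => h2 (by simpa using h)⟩
  constructor
  · -- a functional which separates
    intro hspan
    by_contra hreach
    set R : Fin m → F := fun x =>
      if ((SimpleGraph.fromEdgeSet A).deleteEdges {s(i, j)}).Reachable i x then 1 else 0 with hR
    set φ : (Fin m → F) →ₗ[F] F := Fintype.linearCombination F R with hφ
    have hφs : ∀ (c : F) (x y : Fin m),
        φ (c • ((Pi.single x 1 : Fin m → F) - Pi.single y 1)) = c * (R x - R y) := by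
      intro c x y
      rw [map_smul, map_sub, hφ, Fintype.linearCombination_apply_single,
        Fintype.linearCombination_apply_single]
      simp
    have hker : Submodule.span F (U '' (A \ {s(i, j)})) ≤ LinearMap.ker φ := by
      rw [Submodule.span_le]
      rintro z ⟨s', ⟨hs'A, hs'⟩, rfl⟩
      induction s' using Sym2.ind with
      | _ x y =>
      obtain ⟨c, hc, hcU⟩ := hU x y hs'A
      have hxy := (hadj x y).mpr ⟨hs'A, fun h => hs' (by simpa using h)⟩
      have hRxy : R x = R y := by
        rw [hR]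
        dsimp only
        by_cases h1 : ((SimpleGraph.fromEdgeSet A).deleteEdges {s(i, j)}).Reachable i x
        · rw [if_pos h1, if_pos (h1.trans hxy.reachable)]
        · rw [if_neg h1, if_neg (fun h => h1 (h.trans hxy.symm.reachable))]
      show φ (U s(x, y)) = 0
      rw [hcU, hφs, hRxy, sub_self, mul_zero]
    have h1 : φ (U s(i, j)) = 0 := hker hspan
    obtain ⟨c, hc, hcU⟩ := hU i j hs
    rw [hcU, hφs, hR] at h1
    dsimp only at h1
    rw [if_pos (SimpleGraph.Reachable.refl i), if_neg hreach] at h1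
    simp at h1
    exact hc h1
  · -- a path
    intro hreach
    have key : ∀ x y, ((SimpleGraph.fromEdgeSet A).deleteEdges {s(i, j)}).Reachable x y →
        (Pi.single x 1 : Fin m → F) - Pi.single y 1 ∈
          Submodule.span F (U '' (A \ {s(i, j)})) := by
      rintro x y ⟨p⟩
      induction p with
      | nil => simp
      | cons h p ih =>
        rename_i a b c
        obtain ⟨h1, h2⟩ := (hadj a b).mp h
        obtain ⟨r, hr, hrU⟩ := hU a b h1
        have h3 : (Pi.single a 1 : Fin m → F) - Pi.single b 1 = r⁻¹ • U s(a, b) := by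
          rw [hrU, smul_smul, inv_mul_cancel₀ hr, one_smul]
        have h4 : (Pi.single a 1 : Fin m → F) - Pi.single c 1 =
            r⁻¹ • U s(a, b) + ((Pi.single b 1 : Fin m → F) - Pi.single c 1) := by
          rw [← h3]
          abel
        rw [h4]
        apply Submodule.add_mem _ _ ih
        apply Submodule.smul_mem
        exact Submodule.subset_span ⟨s(a, b), ⟨h1, by simpa using h2⟩, rfl⟩
    obtain ⟨c, hc, hcU⟩ := hU i j hs
    rw [hcU]
    exact Submodule.smul_mem _ _ (key i j hreach)

end Graph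

open Pool.Agent.Helper35.Cq in
/-- **A clique in the sense of `HasClique` gives a minor isomorphic to `M(K_m)`.** -/
theorem exists_minor {F : Type*} [Field F] {V : Type*} [AddCommGroup V] [Module F V]
    {α : Type*} (M : Matroid α) (v : α → V)
    (hv : ∀ I ⊆ M.E, M.Indep I ↔ LinearIndepOn F v I) (m : ℕ)
    (h : HasClique F m (v '' M.E)) :
    ∃ N : Matroid α, N ≤m M ∧ ∃ f : (⊤ : SimpleGraph (Fin m)).edgeSet → α,
      Function.Injective f ∧ Set.range f = N.E ∧
      ∀ A, N.Indep (f '' A) ↔ (SimpleGraph.fromEdgeSet (Subtype.val '' A)).IsAcyclic := by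
  classical
  obtain ⟨C', hC', w, hw, he⟩ := h
  set C : Set α := {x | x ∈ M.E ∧ v x ∈ C'} with hC
  have hCE : C ⊆ M.E := fun x hx => hx.1
  have hvC : v '' C = C' := by
    ext y
    constructor
    · rintro ⟨x, hx, rfl⟩
      exact hx.2
    · intro hy
      obtain ⟨x, hx, rfl⟩ := hC' hy
      exact ⟨x, ⟨hx, hy⟩, rfl⟩
  set W : Submodule F V := Submodule.span F C' with hW
  -- the elements of the minor
  have hs : ∀ s : (⊤ : SimpleGraph (Fin m)).edgeSet, ∃ x ∈ M.E, ∃ i j : Fin m,
      s.1 = s(i, j) ∧ i ≠ j ∧ ∃ c : F, c ≠ 0 ∧ v x - c • (w i - w j) ∈ W := by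
    rintro ⟨s, hs⟩
    induction s using Sym2.ind with
    | _ i j =>
    rw [SimpleGraph.mem_edgeSet, SimpleGraph.top_adj] at hs
    obtain ⟨e, he1, c, hc, hec⟩ := he i j hs
    obtain ⟨x, hx, rfl⟩ := he1
    exact ⟨x, hx, i, j, rfl, hs, c, hc, hec⟩
  choose f hfE I J hIJ hne c hc hmem using hs
  set U : Sym2 (Fin m) → (Fin m → F) := fun s =>
    if h : s ∈ (⊤ : SimpleGraph (Fin m)).edgeSet then
      c ⟨s, h⟩ • ((Pi.single (I ⟨s, h⟩) 1 : Fin m → F) - Pi.single (J ⟨s, h⟩) 1) else 0 with hUdef
  have hUs : ∀ s : (⊤ : SimpleGraph (Fin m)).edgeSet, U s.1 =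
      c s • ((Pi.single (I s) 1 : Fin m → F) - Pi.single (J s) 1) := by
    intro s
    rw [hUdef]
    dsimp only
    rw [dif_pos s.2]
  set Φ : (Fin m → F) →ₗ[F] (V ⧸ W) := Fintype.linearCombination F (fun i => W.mkQ (w i)) with hΦ
  have hΦU : ∀ s : (⊤ : SimpleGraph (Fin m)).edgeSet, W.mkQ (v (f s)) = Φ (U s.1) := by
    intro s
    rw [hUs, map_smul, map_sub, hΦ, Fintype.linearCombination_apply_single,
      Fintype.linearCombination_apply_single, one_smul, one_smul, ← map_sub, ← map_smul,
      ← sub_eq_zero, ← map_sub]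
    rw [Submodule.mkQ_apply, Submodule.Quotient.mk_eq_zero]
    exact hmem s
  -- sums of coordinates
  set Δ : Submodule F (Fin m → F) := LinearMap.ker (Fintype.linearCombination F
    (fun _ : Fin m => (1 : F))) with hΔ
  have hΔU : ∀ s : (⊤ : SimpleGraph (Fin m)).edgeSet, U s.1 ∈ Δ := by
    intro s
    rw [hΔ, LinearMap.mem_ker, hUs, map_smul, map_sub, Fintype.linearCombination_apply_single,
      Fintype.linearCombination_apply_single, sub_self, smul_zero]
  have hΦinj : ∀ a ∈ Δ, Φ a = 0 → a = 0 := by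
    intro a ha h0
    apply hw a
    · rw [hΔ, LinearMap.mem_ker, Fintype.linearCombination_apply] at ha
      simpa using ha
    · rw [hΦ, Fintype.linearCombination_apply] at h0
      have h1 : ∑ i, a i • W.mkQ (w i) = W.mkQ (∑ i, a i • w i) := by
        rw [map_sum]
        simp only [map_smul]
      rw [h1, Submodule.mkQ_apply, Submodule.Quotient.mk_eq_zero] at h0
      exact h0
  have hΦinjOn : Set.InjOn Φ (Δ : Set (Fin m → F)) := by
    intro a ha b hb hab
    have h1 : a - b = 0 := by
      apply hΦinj _ (Δ.sub_mem ha hb)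
      rw [map_sub, hab, sub_self]
    exact sub_eq_zero.mp h1
  have hUI : ∀ s : (⊤ : SimpleGraph (Fin m)).edgeSet, U s.1 (I s) = c s := by
    intro s
    rw [hUs]
    simp [Pi.single_apply, hne s]
  -- `f` is injective
  have hfinj : Function.Injective f := by
    intro s s' hss
    have h1 : U s.1 = U s'.1 := by
      apply hΦinjOn (hΔU s) (hΔU s')
      rw [← hΦU, ← hΦU, hss]
    have h2 : ∀ x : Fin m, U s.1 x ≠ 0 → x = I s' ∨ x = J s' := by
      intro x hx
      by_contra h
      push Not at h
      apply hx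
      rw [h1, hUs]
      simp [Pi.single_apply, h.1, h.2]
    have h3 : U s.1 (I s) ≠ 0 := by rw [hUI]; exact hc s
    have h4 : U s.1 (J s) ≠ 0 := by
      rw [hUs]
      simp [Pi.single_apply, (hne s).symm, hc s]
    have h5 := h2 _ h3
    have h6 := h2 _ h4
    apply Subtype.ext
    rw [hIJ s, hIJ s']
    rcases h5 with h5 | h5
    · rcases h6 with h6 | h6
      · exact absurd (h5.trans h6.symm) (hne s)
      · rw [h5, h6]
    · rcases h6 with h6 | h6
      · rw [h5, h6, Sym2.eq_swap]
      · exact absurd (h5.trans h6.symm) (hne s)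
  have hfC : ∀ s, f s ∉ C := by
    intro s hsC
    have h1 : W.mkQ (v (f s)) = 0 := by
      rw [Submodule.mkQ_apply, Submodule.Quotient.mk_eq_zero]
      exact Submodule.subset_span hsC.2
    rw [hΦU] at h1
    have h2 := hΦinj _ (hΔU s) h1
    have h3 := hUI s
    rw [h2] at h3
    exact hc s h3.symm
  -- the minor
  set Dl : Set α := (M.E \ C) \ Set.range f with hDl
  have hrange : Set.range f ⊆ M.E \ C := by
    rintro x ⟨s, rfl⟩
    exact ⟨hfE s, hfC s⟩
  refine ⟨M ／ C ＼ Dl, Matroid.contract_delete_isMinor M C Dl, f, hfinj, ?_, ?_⟩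
  · rw [Matroid.delete_ground, Matroid.contract_ground, hDl, Set.sdiff_sdiff_cancel_left hrange]
  · intro A
    obtain ⟨B, hB⟩ := M.exists_isBasis C hCE
    have hJ : f '' A ⊆ Set.range f := Set.image_subset_range f A
    have hJE : f '' A ⊆ M.E := fun x hx => (hrange (hJ hx)).1
    have hJC : Disjoint C (f '' A) := by
      rw [Set.disjoint_right]
      intro x hx
      exact (hrange (hJ hx)).2
    have hBC : B ⊆ C := hB.subset
    have hBE : B ⊆ M.E := hBC.trans hCE
    have hBJ : Disjoint B (f '' A) := hJC.mono_left hBC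
    have hBind : LinearIndepOn F v B := (hv B hBE).mp hB.indep
    have hspanB : Submodule.span F (v '' B) = W := by
      apply le_antisymm
      · rw [hW, ← hvC]
        exact Submodule.span_mono (Set.image_mono hBC)
      · rw [hW, ← hvC, Submodule.span_le]
        rintro y ⟨x, hx, rfl⟩
        by_contra hxB
        have hxB' : x ∉ B := fun h => hxB (Submodule.subset_span ⟨x, h, rfl⟩)
        have h1 : LinearIndepOn F v (insert x B) := by
          rw [linearIndepOn_insert hxB']
          exact ⟨hBind, hxB⟩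
        have h2 : M.Indep (insert x B) :=
          (hv _ (Set.insert_subset (hCE hx) hBE)).mpr h1
        have h3 := hB.eq_of_subset_indep h2 (Set.subset_insert _ _)
          (Set.insert_subset hx hBC)
        exact hxB' (h3 ▸ Set.mem_insert _ _)
    rw [Matroid.delete_indep_iff, hB.contract_indep_iff]
    have h1 : Disjoint (f '' A) Dl := by
      rw [Set.disjoint_left]
      intro x hx hxD
      exact hxD.2 (hJ hx)
    have h2 : ((M.Indep (f '' A ∪ B) ∧ Disjoint C (f '' A)) ∧ Disjoint (f '' A) Dl) ↔
        M.Indep (f '' A ∪ B) := by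
      constructor
      · intro h; exact h.1.1
      · intro h; exact ⟨⟨h, hJC⟩, h1⟩
    rw [h2, hv _ (Set.union_subset hJE hBE), Set.union_comm,
      ← hBind.quotient_iff_union hBJ, hspanB]
    have h3 : LinearIndepOn F (W.mkQ ∘ v) (f '' A) ↔ LinearIndepOn F ((W.mkQ ∘ v) ∘ f) A :=
      ⟨fun h => h.comp_of_image hfinj.injOn, fun h => h.image_of_comp⟩
    have h4 : (W.mkQ ∘ v) ∘ f = Φ ∘ (U ∘ Subtype.val) := by
      funext s
      exact hΦU s
    have h5 : LinearIndepOn F (Φ ∘ (U ∘ Subtype.val)) A ↔
        LinearIndepOn F (U ∘ Subtype.val) A := by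
      apply LinearMap.linearIndepOn_iff_of_injOn
      apply hΦinjOn.mono
      have h6 : Submodule.span F ((U ∘ Subtype.val) '' A) ≤ Δ := by
        rw [Submodule.span_le]
        rintro z ⟨s, _, rfl⟩
        exact hΔU s
      exact h6
    have h6 : LinearIndepOn F (U ∘ Subtype.val) A ↔ LinearIndepOn F U (Subtype.val '' A) :=
      ⟨fun h => h.image_of_comp, fun h => h.comp_of_image Subtype.val_injective.injOn⟩
    rw [h3, h4, h5, h6]
    apply linearIndepOn_iff_acyclic
    · rintro s ⟨s', _, rfl⟩
      exact s'.2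
    · rintro i j ⟨s, _, hs⟩
      have h7 := hUs s
      rw [hs] at h7
      have h8 := hIJ s
      rw [hs, Sym2.eq_iff] at h8
      rcases h8 with ⟨h9, h10⟩ | ⟨h9, h10⟩
      · exact ⟨c s, hc s, by rw [h7, ← h9, ← h10]⟩
      · refine ⟨-c s, neg_ne_zero.mpr (hc s), ?_⟩
        rw [h7, ← h9, ← h10, neg_smul, ← smul_neg, neg_sub]

end Pool.Agent.Helper91.Crit
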