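import Mathlib

/-!
# Closure operators with exchange, bridgeless independent sets and covered sets

`Clo` is a finite matroid given by its closure operator. If for every `L` the weighted number of
sets independent modulo `L` is at least `2 ^ (-|L|)` times the weighted number of independent sets,
then the weighted number of independent sets without coloops modulo `L` is at most `2 ^ |L|`
(`noCol_sum`), and the weighted number of independent sets `B` disjoint from `L` all of whose
elements lie in circuits that meet `L` and have at most one element outside `L ∪ B` is at most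
`2 ^ |L|` (`cov_sum`).
-/

set_option autoImplicit false

open Finset

namespace Pool.Agent.Helper91.Crit

/-- A closure operator with the exchange property. -/
structure Clo (ι : Type*) [DecidableEq ι] where
  /-- the closure -/
  cl : Finset ι → Set ι
  /-- extensive -/
  sub : ∀ (A : Finset ι) (i : ι), i ∈ A → i ∈ cl A
  /-- idempotent and monotone -/
  trans : ∀ (A B : Finset ι), (∀ i ∈ A, i ∈ cl B) → ∀ i, i ∈ cl A → i ∈ cl B
  /-- exchange -/
  exch : ∀ (A : Finset ι) (i j : ι), i ∈ cl (insert j A) → i ∉ cl A → j ∈ cl (insert i A)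

namespace Clo

variable {ι : Type*} [DecidableEq ι] (M : Clo ι)

/-- Independent sets. -/
def Ind (R : Finset ι) : Prop := ∀ i ∈ R, i ∉ M.cl (R.erase i)

/-- Independent modulo `L`. -/
def IndMod (L R : Finset ι) : Prop := ∀ i ∈ R, i ∉ M.cl (L ∪ R.erase i)

/-- No coloops modulo `L`. -/
def NoCol (L D : Finset ι) : Prop := ∀ i ∈ D, i ∈ M.cl (L ∪ D.erase i)

/-- Circuits. -/
def Circ (C : Finset ι) : Prop := ¬ M.Ind C ∧ ∀ c ∈ C, M.Ind (C.erase c)

/-- Covered sets. -/
def Cov (L B : Finset ι) : Prop :=
  ∀ u ∈ B, ∃ (C : Finset ι) (m : ι), M.Circ C ∧ u ∈ C ∧ (C ∩ L).Nonempty ∧ C ⊆ insert m (L ∪ B)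

theorem mono {A B : Finset ι} (h : A ⊆ B) {i : ι} (hi : i ∈ M.cl A) : i ∈ M.cl B :=
  M.trans A B (fun j hj => M.sub B j (h hj)) i hi

variable {M}

theorem Ind.mono {A B : Finset ι} (hB : M.Ind B) (h : A ⊆ B) : M.Ind A := by
  intro i hi hc
  exact hB i (h hi) (M.mono (Finset.erase_subset_erase i h) hc)

theorem IndMod.mono {L L' R : Finset ι} (hR : M.IndMod L R) (h : L' ⊆ L) : M.IndMod L' R := by
  intro i hi hc
  exact hR i hi (M.mono (Finset.union_subset_union h subset_rfl) hc)

theorem indMod_empty {R : Finset ι} : M.IndMod ∅ R ↔ M.Ind R := by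
  unfold IndMod Ind
  simp

theorem ind_empty : M.Ind ∅ := by
  intro i hi
  exact absurd hi (Finset.notMem_empty i)

theorem Ind.insert {A : Finset ι} (hA : M.Ind A) {i : ι} (hi : i ∉ M.cl A) :
    M.Ind (insert i A) := by
  have hiA : i ∉ A := fun h => hi (M.sub A i h)
  intro j hj hc
  rcases Finset.mem_insert.mp hj with h | h
  · subst h
    rw [Finset.erase_insert hiA] at hc
    exact hi hc
  · have hji : i ≠ j := fun h' => hiA (h' ▸ h)
    rw [Finset.erase_insert_of_ne hji] at hc
    have h1 := M.exch _ _ _ hc (hA j h)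
    rw [Finset.insert_erase h] at h1
    exact hi h1

theorem Circ.mem_cl {C : Finset ι} (hC : M.Circ C) {c : ι} (hc : c ∈ C) :
    c ∈ M.cl (C.erase c) := by
  by_contra h
  apply hC.1
  have h1 := (hC.2 c hc).insert h
  rwa [Finset.insert_erase hc] at h1

theorem Circ.ind_of_subset {C : Finset ι} (hC : M.Circ C) {c : ι} (hc : c ∈ C) {A : Finset ι}
    (hA : A ⊆ C.erase c) : M.Ind A := (hC.2 c hc).mono hA

/-- Fundamental circuits exist. -/
theorem exists_circ (m : ι) (A : Finset ι) :
    M.Ind A → m ∈ M.cl A → m ∉ A → ∃ C, M.Circ C ∧ m ∈ C ∧ C ⊆ insert m A := by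
  induction A using Finset.strongInduction with
  | H A ih =>
  intro hA hm hmA
  by_cases h : ∃ a ∈ A, m ∈ M.cl (A.erase a)
  · obtain ⟨a, ha, hma⟩ := h
    obtain ⟨C, hC, hmC, hCs⟩ := ih (A.erase a) (Finset.erase_ssubset ha)
      (hA.mono (Finset.erase_subset _ _)) hma (fun h' => hmA (Finset.erase_subset _ _ h'))
    exact ⟨C, hC, hmC, hCs.trans (Finset.insert_subset_insert _ (Finset.erase_subset _ _))⟩
  · push Not at h
    refine ⟨Insert.insert m A, ⟨?_, ?_⟩, Finset.mem_insert_self _ _, subset_rfl⟩
    · intro hI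
      apply hI m (Finset.mem_insert_self _ _)
      rwa [Finset.erase_insert hmA]
    · intro c hc
      rcases Finset.mem_insert.mp hc with h1 | h1
      · subst h1
        rwa [Finset.erase_insert hmA]
      · have hcm : m ≠ c := fun h' => hmA (h' ▸ h1)
        rw [Finset.erase_insert_of_ne hcm]
        exact (hA.mono (Finset.erase_subset _ _)).insert (h c h1)

/-- Fundamental circuits are unique. -/
theorem circ_subset {m : ι} {A C C' : Finset ι} (hA : M.Ind A) (hC : M.Circ C) (hC' : M.Circ C')
    (hm' : m ∈ C') (hs : C ⊆ insert m A) (hs' : C' ⊆ insert m A) : C ⊆ C' := by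
  intro c hc
  by_contra hcC'
  have hcm : c ≠ m := fun h => hcC' (h ▸ hm')
  have hcA : c ∈ A := (Finset.mem_insert.mp (hs hc)).resolve_left hcm
  have h1 : m ∈ M.cl (A.erase c) := by
    apply M.mono _ (hC'.mem_cl hm')
    intro x hx
    rw [Finset.mem_erase] at hx
    rw [Finset.mem_erase]
    exact ⟨fun h => hcC' (h ▸ hx.2), (Finset.mem_insert.mp (hs' hx.2)).resolve_left hx.1⟩
  have h2 : c ∈ M.cl (A.erase c) := by
    refine M.trans (C.erase c) _ ?_ c (hC.mem_cl hc)
    intro x hx
    rw [Finset.mem_erase] at hx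
    rcases Finset.mem_insert.mp (hs hx.2) with h3 | h3
    · rw [h3]; exact h1
    · exact M.sub _ _ (Finset.mem_erase.mpr ⟨hx.1, h3⟩)
  exact hA c hcA h2

theorem Ind.union {P G : Finset ι} (hP : M.Ind P) (hG : M.IndMod P G) : M.Ind (P ∪ G) := by
  have key : ∀ G' : Finset ι, G' ⊆ G → M.Ind (P ∪ G') := by
    intro G'
    induction G' using Finset.induction_on with
    | empty => intro _; simpa using hP
    | insert g G' hg ih =>
      intro hs
      have hs' : G' ⊆ G := (Finset.subset_insert _ _).trans hs
      rw [Finset.union_insert]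
      apply (ih hs').insert
      intro hc
      apply hG g (hs (Finset.mem_insert_self _ _))
      apply M.mono _ hc
      apply Finset.union_subset_union subset_rfl
      intro x hx
      exact Finset.mem_erase.mpr ⟨fun h => hg (h ▸ hx), hs' hx⟩
  exact key G subset_rfl

/-- Removing coloops. -/
theorem mem_cl_of_coloops {i : ι} {Q : Finset ι} {G : Finset ι}
    (h : ∀ g ∈ G, g ∉ M.cl (insert i (Q ∪ G.erase g))) (hi : i ∈ M.cl (Q ∪ G)) : i ∈ M.cl Q := by
  have key : ∀ G' : Finset ι, G' ⊆ G → i ∈ M.cl (Q ∪ G') → i ∈ M.cl Q := by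
    intro G'
    induction G' using Finset.induction_on with
    | empty => intro _ h1; simpa using h1
    | insert g G' hg ih =>
      intro hs h1
      have hs' : G' ⊆ G := (Finset.subset_insert _ _).trans hs
      apply ih hs'
      by_contra h2
      rw [Finset.union_insert] at h1
      have h3 := M.exch _ _ _ h1 h2
      apply h g (hs (Finset.mem_insert_self _ _))
      apply M.mono _ h3
      apply Finset.insert_subset_insert
      apply Finset.union_subset_union subset_rfl
      intro x hx
      exact Finset.mem_erase.mpr ⟨fun h => hg (h ▸ hx), hs' hx⟩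
  exact key G subset_rfl hi

section Structure

/-- **The structure of covered sets.** -/
theorem cov_step {L B : Finset ι} (hB : M.Ind B) (hd : Disjoint L B) (hcov : M.Cov L B) :
    ∃ D K B2 : Finset ι, K ⊆ D ∧ B = K ∪ B2 ∧ Disjoint D B2 ∧ M.Ind D ∧ M.NoCol L D ∧
      D.card ≤ 2 * K.card ∧ M.Ind B2 ∧ M.Cov D B2 ∧ (B.Nonempty → K.Nonempty) := by
  classical
  choose! C m hC using hcov
  set M0 : Finset ι := (B.filter (fun u => m u ∈ C u ∧ m u ∉ L ∪ B)).image m with hM0
  -- a maximal subset
  have hne : (M0.powerset.filter (fun N => M.Ind (B ∪ N))).Nonempty := by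
    refine ⟨∅, ?_⟩
    rw [Finset.mem_filter]
    exact ⟨Finset.empty_mem_powerset _, by simpa using hB⟩
  obtain ⟨M1, hM1, hmax⟩ := Finset.exists_max_image _ Finset.card hne
  rw [Finset.mem_filter, Finset.mem_powerset] at hM1
  obtain ⟨hM1s, hM1i⟩ := hM1
  set D1 : Finset ι := B ∪ M1 with hD1
  have hcl : ∀ x ∈ M0, x ∈ M.cl D1 := by
    intro x hx
    by_contra h
    have hxM : x ∉ M1 := fun h' => h (M.sub _ _ (Finset.mem_union_right _ h'))
    have h1 : M.Ind (B ∪ insert x M1) := by
      rw [Finset.union_insert]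
      exact hM1i.insert h
    have h2 := hmax (Insert.insert x M1) (by
      rw [Finset.mem_filter, Finset.mem_powerset]
      exact ⟨Finset.insert_subset hx hM1s, h1⟩)
    rw [Finset.card_insert_of_notMem hxM] at h2
    omega
  have hM0mem : ∀ x ∈ M0, ∃ u ∈ B, m u = x ∧ x ∈ C u ∧ x ∉ L ∪ B := by
    intro x hx
    rw [hM0, Finset.mem_image] at hx
    obtain ⟨u, hu, hux⟩ := hx
    rw [Finset.mem_filter] at hu
    refine ⟨u, hu.1, hux, ?_, ?_⟩
    · rw [← hux]; exact hu.2.1
    · rw [← hux]; exact hu.2.2
  -- facts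
  have F1 : ∀ u ∈ B, C u ⊆ L ∪ D1 → u ∈ M.cl (L ∪ D1.erase u) := by
    intro u hu hs
    obtain ⟨h1, h2, h3, h4⟩ := hC u hu
    apply M.mono _ (h1.mem_cl h2)
    intro x hx
    rw [Finset.mem_erase] at hx
    rcases Finset.mem_union.mp (hs hx.2) with h5 | h5
    · exact Finset.mem_union_left _ h5
    · exact Finset.mem_union_right _ (Finset.mem_erase.mpr ⟨hx.1, h5⟩)
  have F1' : ∀ u ∈ B, m u ∈ L ∪ D1 ∨ m u ∉ C u → u ∈ M.cl (L ∪ D1.erase u) := by
    intro u hu hs
    apply F1 u hu
    obtain ⟨h1, h2, h3, h4⟩ := hC u hu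
    intro x hx
    rcases Finset.mem_insert.mp (h4 hx) with h5 | h5
    · rcases hs with h6 | h6
      · rw [h5]; exact h6
      · exact absurd (h5 ▸ hx) h6
    · rcases Finset.mem_union.mp h5 with h6 | h6
      · exact Finset.mem_union_left _ h6
      · exact Finset.mem_union_right _ (Finset.mem_union_left _ h6)
  have F2 : ∀ x ∈ M1, x ∈ M.cl (L ∪ D1.erase x) := by
    intro x hx
    obtain ⟨u, hu, hux, hxC, hxLB⟩ := hM0mem x (hM1s hx)
    obtain ⟨h1, h2, h3, h4⟩ := hC u hu
    apply M.mono _ (h1.mem_cl hxC)
    intro z hz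
    rw [Finset.mem_erase] at hz
    rcases Finset.mem_insert.mp (h4 hz.2) with h5 | h5
    · exact absurd (h5.trans hux) hz.1
    · rcases Finset.mem_union.mp h5 with h6 | h6
      · exact Finset.mem_union_left _ h6
      · exact Finset.mem_union_right _ (Finset.mem_erase.mpr ⟨hz.1, Finset.mem_union_left _ h6⟩)
  set D : Finset ι := D1.filter (fun i => i ∈ M.cl (L ∪ D1.erase i)) with hD
  set B2 : Finset ι := D1.filter (fun i => i ∉ M.cl (L ∪ D1.erase i)) with hB2
  have hD1eq : D1 = D ∪ B2 := (Finset.filter_union_filter_not_eq _ _).symm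
  have hDs : D ⊆ D1 := Finset.filter_subset _ _
  have hB2s : B2 ⊆ D1 := Finset.filter_subset _ _
  have hDB2 : Disjoint D B2 := Finset.disjoint_filter_filter_not _ _ _
  have hM1D : M1 ⊆ D := by
    intro x hx
    rw [hD, Finset.mem_filter]
    exact ⟨Finset.mem_union_right _ hx, F2 x hx⟩
  have hB2B : B2 ⊆ B := by
    intro x hx
    rcases Finset.mem_union.mp (hB2s hx) with h1 | h1
    · exact h1
    · exact absurd hx (Finset.disjoint_left.mp hDB2 (hM1D h1))
  set K : Finset ι := D ∩ B with hK
  have hBeq : B = K ∪ B2 := by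
    ext x
    constructor
    · intro hx
      have h1 : x ∈ D1 := Finset.mem_union_left _ hx
      rw [hD1eq] at h1
      rcases Finset.mem_union.mp h1 with h2 | h2
      · exact Finset.mem_union_left _ (Finset.mem_inter.mpr ⟨h2, hx⟩)
      · exact Finset.mem_union_right _ h2
    · intro hx
      rcases Finset.mem_union.mp hx with h2 | h2
      · exact (Finset.mem_inter.mp h2).2
      · exact hB2B h2
  -- the number of elements
  have hM1K : M1.card ≤ K.card := by
    have h1 : M1 ⊆ K.image m := by
      intro x hx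
      obtain ⟨u, hu, hux, hxC, hxLB⟩ := hM0mem x (hM1s hx)
      rw [Finset.mem_image]
      refine ⟨u, ?_, hux⟩
      rw [hK, Finset.mem_inter]
      refine ⟨?_, hu⟩
      rw [hD, Finset.mem_filter]
      refine ⟨Finset.mem_union_left _ hu, F1' u hu (Or.inl ?_)⟩
      rw [hux]
      exact Finset.mem_union_right _ (Finset.mem_union_right _ hx)
    exact (Finset.card_le_card h1).trans Finset.card_image_le
  have hDcard : D.card ≤ 2 * K.card := by
    have h1 : D ⊆ K ∪ M1 := by
      intro x hx
      rcases Finset.mem_union.mp (hDs hx) with h2 | h2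
      · exact Finset.mem_union_left _ (Finset.mem_inter.mpr ⟨hx, h2⟩)
      · exact Finset.mem_union_right _ h2
    have h2 := (Finset.card_le_card h1).trans (Finset.card_union_le _ _)
    omega
  have hcol : ∀ g ∈ B2, g ∉ M.cl (L ∪ D1.erase g) := by
    intro g hg
    rw [hB2, Finset.mem_filter] at hg
    exact hg.2
  -- no coloops
  have hNC : M.NoCol L D := by
    intro i hi
    have hi' := hi
    rw [hD, Finset.mem_filter] at hi'
    apply mem_cl_of_coloops (G := B2)
    · intro g hg hc
      apply hcol g hg
      apply M.mono _ hc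
      have hig : i ≠ g := fun h => Finset.disjoint_left.mp hDB2 hi (h ▸ hg)
      apply Finset.insert_subset
      · exact Finset.mem_union_right _ (Finset.mem_erase.mpr ⟨hig, hi'.1⟩)
      · apply Finset.union_subset
        · apply Finset.union_subset_union subset_rfl
          intro x hx
          rw [Finset.mem_erase] at hx
          exact Finset.mem_erase.mpr
            ⟨fun h => Finset.disjoint_left.mp hDB2 hx.2 (h ▸ hg), hDs hx.2⟩
        · intro x hx
          rw [Finset.mem_erase] at hx
          exact Finset.mem_union_right _ (Finset.mem_erase.mpr ⟨hx.1, hB2s hx.2⟩)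
    · apply M.mono _ hi'.2
      intro x hx
      rcases Finset.mem_union.mp hx with h2 | h2
      · exact Finset.mem_union_left _ (Finset.mem_union_left _ h2)
      · rw [Finset.mem_erase] at h2
        have h3 := h2.2
        rw [hD1eq] at h3
        rcases Finset.mem_union.mp h3 with h4 | h4
        · exact Finset.mem_union_left _
            (Finset.mem_union_right _ (Finset.mem_erase.mpr ⟨h2.1, h4⟩))
        · exact Finset.mem_union_right _ h4
  -- the covering of `B2`
  have hCov2 : ∀ u ∈ B2, ∃ C' : Finset ι, M.Circ C' ∧ u ∈ C' ∧ (C' ∩ D).Nonempty ∧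
      C' ⊆ insert (m u) (D ∪ B2) := by
    intro u hu
    have huB : u ∈ B := hB2B hu
    obtain ⟨h1, h2, h3, h4⟩ := hC u huB
    have hmC : m u ∈ C u := by
      by_contra h
      exact hcol u hu (F1' u huB (Or.inr h))
    have hmLD : m u ∉ L ∪ D1 := fun h => hcol u hu (F1' u huB (Or.inl h))
    have hmLB : m u ∉ L ∪ B := fun h => hmLD
      (Finset.union_subset_union subset_rfl Finset.subset_union_left h)
    have hmM0 : m u ∈ M0 := by
      rw [hM0, Finset.mem_image]
      exact ⟨u, Finset.mem_filter.mpr ⟨huB, hmC, hmLB⟩, rfl⟩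
    have hmD1 : m u ∉ D1 := fun h => hmLD (Finset.mem_union_right _ h)
    obtain ⟨G, hG, hmG, hGs⟩ := exists_circ (m u) D1 hM1i (hcl _ hmM0) hmD1
    have hum : u ≠ m u := by
      intro h
      apply hmD1
      rw [← h]
      exact hB2s hu
    refine ⟨G, hG, ?_, ?_, ?_⟩
    · by_contra huG
      have h5 : m u ∈ M.cl (L ∪ D1.erase u) := by
        apply M.mono _ (hG.mem_cl hmG)
        intro x hx
        rw [Finset.mem_erase] at hx
        apply Finset.mem_union_right
        rw [Finset.mem_erase]
        exact ⟨fun h => huG (h ▸ hx.2), (Finset.mem_insert.mp (hGs hx.2)).resolve_left hx.1⟩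
      apply hcol u hu
      refine M.trans ((C u).erase u) _ ?_ u (h1.mem_cl h2)
      intro x hx
      rw [Finset.mem_erase] at hx
      rcases Finset.mem_insert.mp (h4 hx.2) with h6 | h6
      · rw [h6]; exact h5
      · apply M.sub
        rcases Finset.mem_union.mp h6 with h7 | h7
        · exact Finset.mem_union_left _ h7
        · exact Finset.mem_union_right _
            (Finset.mem_erase.mpr ⟨hx.1, Finset.mem_union_left _ h7⟩)
    · by_contra hGD
      rw [Finset.not_nonempty_iff_eq_empty] at hGD
      have hGB2 : G ⊆ insert (m u) B2 := by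
        intro x hx
        rcases Finset.mem_insert.mp (hGs hx) with h5 | h5
        · exact Finset.mem_insert.mpr (Or.inl h5)
        · rw [hD1eq] at h5
          rcases Finset.mem_union.mp h5 with h6 | h6
          · exfalso
            have : x ∈ G ∩ D := Finset.mem_inter.mpr ⟨hx, h6⟩
            rw [hGD] at this
            exact Finset.notMem_empty x this
          · exact Finset.mem_insert.mpr (Or.inr h6)
      set P : Finset ι := ((C u).erase (m u)).filter (fun x => x ∉ B2) with hP
      have hPs : P ⊆ L ∪ D := by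
        intro x hx
        rw [hP, Finset.mem_filter, Finset.mem_erase] at hx
        have h5 := (Finset.mem_insert.mp (h4 hx.1.2)).resolve_left hx.1.1
        rcases Finset.mem_union.mp h5 with h6 | h6
        · exact Finset.mem_union_left _ h6
        · rw [hBeq] at h6
          rcases Finset.mem_union.mp h6 with h7 | h7
          · exact Finset.mem_union_right _ (Finset.mem_inter.mp h7).1
          · exact absurd h7 hx.2
      have hPi : M.Ind P := h1.ind_of_subset hmC (Finset.filter_subset _ _)
      have hA : M.Ind (P ∪ B2) := by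
        apply hPi.union
        intro g hg hc
        apply hcol g hg
        apply M.mono _ hc
        apply Finset.union_subset
        · intro x hx
          rcases Finset.mem_union.mp (hPs hx) with h6 | h6
          · exact Finset.mem_union_left _ h6
          · exact Finset.mem_union_right _ (Finset.mem_erase.mpr
              ⟨fun h => Finset.disjoint_left.mp hDB2 h6 (h ▸ hg), hDs h6⟩)
        · intro x hx
          rw [Finset.mem_erase] at hx
          exact Finset.mem_union_right _ (Finset.mem_erase.mpr ⟨hx.1, hB2s hx.2⟩)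
      have hCs : C u ⊆ insert (m u) (P ∪ B2) := by
        intro x hx
        rw [Finset.mem_insert]
        by_cases h5 : x = m u
        · exact Or.inl h5
        · right
          by_cases h6 : x ∈ B2
          · exact Finset.mem_union_right _ h6
          · apply Finset.mem_union_left
            rw [hP, Finset.mem_filter, Finset.mem_erase]
            exact ⟨⟨h5, hx⟩, h6⟩
      have hGs' : G ⊆ insert (m u) (P ∪ B2) :=
        hGB2.trans (Finset.insert_subset_insert _ Finset.subset_union_right)
      have hCG : C u ⊆ G := circ_subset hA h1 hG hmG hCs hGs'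
      obtain ⟨l, hl⟩ := h3
      rw [Finset.mem_inter] at hl
      rcases Finset.mem_insert.mp (hGB2 (hCG hl.1)) with h5 | h5
      · apply hmLB
        rw [← h5]
        exact Finset.mem_union_left _ hl.2
      · exact Finset.disjoint_left.mp hd hl.2 (hB2B h5)
    · rw [← hD1eq]; exact hGs
  refine ⟨D, K, B2, Finset.inter_subset_left, hBeq, hDB2, hM1i.mono hDs, hNC, hDcard,
    hM1i.mono hB2s, ?_, ?_⟩
  · intro u hu
    obtain ⟨C', h1, h2, h3, h4⟩ := hCov2 u hu
    exact ⟨C', m u, h1, h2, h3, h4⟩
  · rintro ⟨u, hu⟩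
    have hu' := hu
    rw [hBeq] at hu'
    rcases Finset.mem_union.mp hu' with h1 | h1
    · exact ⟨u, h1⟩
    · obtain ⟨C', _, _, ⟨x, hx⟩, _⟩ := hCov2 u h1
      have h2 : 0 < D.card := Finset.card_pos.mpr ⟨x, (Finset.mem_inter.mp hx).2⟩
      exact Finset.card_pos.mp (by omega)

end Structure

end Clo

end Pool.Agent.Helper91.Crit
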