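import Pool.Agent.Helper91.Crit.Main
import Pool.Agent.Helper91.Crit.CliqueMinor
import Pool.Agent.Helper35.Cq.Final

/-!
# Vectors without clique minor are avoided by few hyperplanes
-/

set_option autoImplicit false

open Finset Module
open Pool.Agent.Helper35.Cq

namespace Pool.Agent.Helper91.Crit

/-- Linear maps avoiding prescribed values at the vectors of a set without clique minor. -/
theorem exists_avoid_of_not_hasClique (m : ℕ) {F : Type*} [Field F] [Finite F]
    {V : Type*} [AddCommGroup V] [Module F V] [FiniteDimensional F V]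
    (E : Finset V) (h0 : ∀ x ∈ E, x ≠ 0) (hE : ¬ HasClique F m (E : Set V))
    {k : ℕ} (hk : 14 * m ^ 2 + 152 * m + 95 ≤ k) (t : V → (Fin k → F)) :
    ∃ φ : V →ₗ[F] (Fin k → F), ∀ x ∈ E, φ x ≠ t x := by
  classical
  have := Fintype.ofFinite F
  set c : ℕ := 7 * m ^ 2 + 76 * m + 42 with hc
  set D : ℕ := Fintype.card F ^ c with hD
  have hq : 2 ≤ Fintype.card F := Fintype.one_lt_card
  have hD1 : 1 ≤ D := Nat.one_le_pow _ _ (by omega)
  have hT : 2048 * D ^ 2 ≤ Nat.card (Fin k → F) := by
    rw [Nat.card_eq_fintype_card, Fintype.card_fun, Fintype.card_fin]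
    have h1 : (2048 : ℕ) ≤ Fintype.card F ^ 11 := by
      calc (2048 : ℕ) = 2 ^ 11 := by norm_num
        _ ≤ Fintype.card F ^ 11 := Nat.pow_le_pow_left hq 11
    calc 2048 * D ^ 2 ≤ Fintype.card F ^ 11 * D ^ 2 := Nat.mul_le_mul_right _ h1
      _ = Fintype.card F ^ (11 + c * 2) := by rw [hD, ← pow_mul, ← pow_add]
      _ ≤ Fintype.card F ^ k := by
          apply Nat.pow_le_pow_right (by omega)
          omega
  have hdens : ∀ U : Submodule F V, Nat.card {i : {x // x ∈ E} // i.1 ∈ U} ≤ D * finrank F U := by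
    intro U
    set EU : Finset V := E.filter (fun x => x ∈ U) with hEU
    have h1 : EU.card ≤ D * rk F EU := by
      apply density_all
      · intro x hx
        exact h0 x (Finset.mem_filter.mp hx).1
      · intro h
        apply hE
        apply h.mono
        intro x hx
        exact (Finset.mem_filter.mp hx).1
    have h2 : rk F EU ≤ finrank F U := by
      apply Submodule.finrank_mono
      rw [Submodule.span_le]
      intro x hx
      exact (Finset.mem_filter.mp hx).2
    have h3 : Nat.card {i : {x // x ∈ E} // i.1 ∈ U} ≤ EU.card := by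
      have h4 : Nat.card {x // x ∈ EU} = EU.card := by
        rw [Nat.card_eq_fintype_card, Fintype.card_coe]
      rw [← h4]
      apply Nat.card_le_card_of_injective
        (fun i : {i : {x // x ∈ E} // i.1 ∈ U} =>
          (⟨i.1.1, Finset.mem_filter.mpr ⟨i.1.2, i.2⟩⟩ : {x // x ∈ EU}))
      intro i j hij
      apply Subtype.ext
      apply Subtype.ext
      exact congrArg (fun z : {x // x ∈ EU} => z.1) hij
    exact h3.trans (h1.trans (Nat.mul_le_mul_left _ h2))
  obtain ⟨φ, hφ⟩ := exists_avoid D hD1 hT (fun i : {x // x ∈ E} => i.1)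
    (fun i => h0 i.1 i.2) hdens (fun i => t i.1)
  exact ⟨φ, fun x hx => hφ ⟨x, hx⟩⟩

end Pool.Agent.Helper91.Crit
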