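import Mathlib

/-!
# Signed face sums of a simplicial complex stay positive

`I` is a down-closed family of finite sets (a simplicial complex). `Z I lam L S` is the sum of
`(-lam) ^ |A|` over the subsets `A` of `S` such that `A ∪ L` is a face. If for every face `L` the
sets `B` covered by minimal nonfaces inside `L ∪ B` that meet `L` satisfy
`∑ (8 lam) ^ |B| ≤ 2 ^ |L|`, then `Z I lam ∅ S > 0`.
-/

set_option autoImplicit false

open Finset

namespace Pool.Agent.Helper91.Crit.Gas

variable {ι : Type*} [DecidableEq ι]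

/-- `b` is a minimal nonface of the complex `I`. -/
def MinNon (I : Finset ι → Prop) (b : Finset ι) : Prop :=
  ¬ I b ∧ ∀ c, c ⊂ b → I c

/-- Every element of `B` lies in a minimal nonface contained in `L ∪ B` that meets `L`. -/
def CovI (I : Finset ι → Prop) (L B : Finset ι) : Prop :=
  ∀ u ∈ B, ∃ b, MinNon I b ∧ u ∈ b ∧ b ⊆ L ∪ B ∧ (b ∩ L).Nonempty

open Classical in
/-- The signed face sum of the link of `L` inside `S`. -/
noncomputable def Z (I : Finset ι → Prop) (lam : ℝ) (L S : Finset ι) : ℝ :=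
  ∑ A ∈ S.powerset, if I (A ∪ L) then (-lam) ^ A.card else 0

/-- Moebius inverse on the Boolean lattice. -/
noncomputable def mob (f : Finset ι → ℝ) (B : Finset ι) : ℝ :=
  ∑ A ∈ B.powerset, (-1) ^ (B \ A).card * f A

theorem mob_empty (f : Finset ι → ℝ) : mob f ∅ = f ∅ := by
  simp [mob]

theorem mob_insert (f : Finset ι → ℝ) (u : ι) (B : Finset ι) (hu : u ∉ B) :
    mob f (insert u B) = mob (fun A => f (insert u A)) B - mob f B := by
  unfold mob
  rw [Finset.sum_powerset_insert hu]
  have h1 : ∀ A ∈ B.powerset, (-1 : ℝ) ^ (insert u B \ A).card * f A =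
      - ((-1) ^ (B \ A).card * f A) := by
    intro A hA
    have hA' : A ⊆ B := Finset.mem_powerset.mp hA
    have huA : u ∉ A := fun h => hu (hA' h)
    rw [Finset.insert_sdiff_of_notMem _ huA, Finset.card_insert_of_notMem, pow_succ]
    · ring
    · intro h
      exact hu (Finset.mem_sdiff.mp h).1
  have h2 : ∀ A ∈ B.powerset, (-1 : ℝ) ^ (insert u B \ insert u A).card * f (insert u A) =
      (-1) ^ (B \ A).card * f (insert u A) := by
    intro A hA
    have h3 : insert u B \ insert u A = B \ A := by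
      ext x
      simp only [Finset.mem_sdiff, Finset.mem_insert, not_or]
      constructor
      · rintro ⟨h4, h5, h6⟩
        exact ⟨h4.resolve_left h5, h6⟩
      · rintro ⟨h4, h5⟩
        exact ⟨Or.inr h4, fun h => hu (h ▸ h4), h5⟩
    rw [h3]
  rw [Finset.sum_congr rfl h1, Finset.sum_congr rfl h2, Finset.sum_neg_distrib]
  ring

theorem sum_mob (A : Finset ι) : ∀ f : Finset ι → ℝ, ∑ B ∈ A.powerset, mob f B = f A := by
  induction A using Finset.induction_on with
  | empty => intro f; simp [mob_empty]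
  | insert u A hu ih =>
    intro f
    rw [Finset.sum_powerset_insert hu]
    have h1 : ∀ B ∈ A.powerset, mob f (insert u B) =
        mob (fun A => f (insert u A)) B - mob f B := fun B hB =>
      mob_insert f u B (fun h => hu (Finset.mem_powerset.mp hB h))
    rw [Finset.sum_congr rfl h1, Finset.sum_sub_distrib, ih, ih]
    ring

theorem abs_mob_le (f : Finset ι → ℝ) (hf : ∀ A, |f A| ≤ 1) (B : Finset ι) :
    |mob f B| ≤ 2 ^ B.card := by
  unfold mob
  calc |∑ A ∈ B.powerset, (-1 : ℝ) ^ (B \ A).card * f A|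
      ≤ ∑ A ∈ B.powerset, |(-1 : ℝ) ^ (B \ A).card * f A| := Finset.abs_sum_le_sum_abs _ _
    _ ≤ ∑ A ∈ B.powerset, (1 : ℝ) := by
        apply Finset.sum_le_sum
        intro A _
        rw [abs_mul, abs_pow, abs_neg, abs_one, one_pow, one_mul]
        exact hf A
    _ = 2 ^ B.card := by
        rw [Finset.sum_const, Finset.card_powerset, nsmul_eq_mul, mul_one]
        norm_cast

theorem mob_eq_zero (f : Finset ι → ℝ) (u : ι) (B : Finset ι) (hu : u ∈ B)
    (h : ∀ A, A ⊆ B.erase u → f (insert u A) = f A) : mob f B = 0 := by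
  have h1 : mob f (insert u (B.erase u)) = 0 := by
    rw [mob_insert f u (B.erase u) (Finset.notMem_erase u B)]
    unfold mob
    rw [← Finset.sum_sub_distrib]
    apply Finset.sum_eq_zero
    intro A hA
    have h2 := h A (Finset.mem_powerset.mp hA)
    simp only [h2]
    ring
  rwa [Finset.insert_erase hu] at h1

/-- Swapping the sums. -/
theorem sum_mul_eq (S : Finset ι) (w f : Finset ι → ℝ) :
    ∑ A ∈ S.powerset, w A * f A =
      ∑ B ∈ S.powerset, mob f B * ∑ A ∈ (S \ B).powerset, w (A ∪ B) := by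
  have h1 : ∀ A ∈ S.powerset, w A * f A = ∑ B ∈ A.powerset, w A * mob f B := by
    intro A _
    rw [← Finset.mul_sum, sum_mob]
  rw [Finset.sum_congr rfl h1]
  rw [Finset.sum_comm' (t' := S.powerset) (s' := fun B => Finset.Icc B S)]
  · apply Finset.sum_congr rfl
    intro B hB
    have hB' : B ⊆ S := Finset.mem_powerset.mp hB
    rw [Finset.Icc_eq_image_powerset hB', Finset.sum_image]
    · rw [Finset.mul_sum]
      apply Finset.sum_congr rfl
      intro A _
      rw [Finset.union_comm B A]
      ring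
    · intro A hA A' hA' h
      have h2 : A ⊆ S \ B := Finset.mem_powerset.mp hA
      have h3 : A' ⊆ S \ B := Finset.mem_powerset.mp hA'
      have h4 : B ∪ A = B ∪ A' := h
      ext x
      constructor
      · intro hx
        have h5 : x ∈ B ∪ A' := h4 ▸ Finset.mem_union_right B hx
        exact (Finset.mem_union.mp h5).resolve_left (Finset.mem_sdiff.mp (h2 hx)).2
      · intro hx
        have h5 : x ∈ B ∪ A := h4 ▸ Finset.mem_union_right B hx
        exact (Finset.mem_union.mp h5).resolve_left (Finset.mem_sdiff.mp (h3 hx)).2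
  · intro A B
    simp only [Finset.mem_powerset, Finset.mem_Icc]
    constructor
    · rintro ⟨h2, h3⟩
      exact ⟨⟨h3, h2⟩, h3.trans h2⟩
    · rintro ⟨⟨h2, h3⟩, _⟩
      exact ⟨h3, h2⟩

variable (I : Finset ι → Prop)

open Classical in
/-- Compatibility of `A` with `L`. -/
noncomputable def comp (L A : Finset ι) : ℝ :=
  if ∃ b, MinNon I b ∧ b ⊆ L ∪ A ∧ (b ∩ L).Nonempty then 0 else 1

theorem abs_comp_le (L A : Finset ι) : |comp I L A| ≤ 1 := by
  unfold comp
  split_ifs <;> simp

/-- Every nonface contains a minimal nonface. -/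
theorem exists_minNon (A : Finset ι) (hA : ¬ I A) : ∃ b, MinNon I b ∧ b ⊆ A := by
  induction A using Finset.strongInduction with
  | H A ih =>
    by_cases h : ∀ c, c ⊂ A → I c
    · exact ⟨A, ⟨hA, h⟩, subset_rfl⟩
    · push Not at h
      obtain ⟨c, hc, hcI⟩ := h
      obtain ⟨b, hb, hbc⟩ := ih c hc hcI
      exact ⟨b, hb, hbc.trans hc.1⟩

variable {I}

theorem face_union_iff (hdown : ∀ A B, A ⊆ B → I B → I A) (L A : Finset ι) :
    I (A ∪ L) ↔ I A ∧ ¬ ∃ b, MinNon I b ∧ b ⊆ L ∪ A ∧ (b ∩ L).Nonempty := by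
  constructor
  · intro h
    refine ⟨hdown _ _ Finset.subset_union_left h, ?_⟩
    rintro ⟨b, hb, hbs, _⟩
    rw [Finset.union_comm] at hbs
    exact hb.1 (hdown _ _ hbs h)
  · rintro ⟨h1, h2⟩
    by_contra h3
    obtain ⟨b, hb, hbs⟩ := exists_minNon I _ h3
    rw [Finset.union_comm] at hbs
    apply h2
    refine ⟨b, hb, hbs, ?_⟩
    by_contra h4
    rw [Finset.not_nonempty_iff_eq_empty] at h4
    have h5 : b ⊆ A := by
      intro x hx
      rcases Finset.mem_union.mp (hbs hx) with h6 | h6
      · exfalso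
        have : x ∈ b ∩ L := Finset.mem_inter.mpr ⟨hx, h6⟩
        rw [h4] at this
        exact absurd this (Finset.notMem_empty x)
      · exact h6
    exact hb.1 (hdown _ _ h5 h1)

theorem comp_empty (hdown : ∀ A B, A ⊆ B → I B → I A) (L : Finset ι) (hL : I L) :
    comp I L ∅ = 1 := by
  unfold comp
  rw [if_neg]
  rintro ⟨b, hb, hbs, _⟩
  rw [Finset.union_empty] at hbs
  exact hb.1 (hdown _ _ hbs hL)

/-- The Moebius inverse of `comp` vanishes at `B` unless `B` is covered. -/
theorem cov_of_mob_ne_zero (L B : Finset ι) (h : mob (comp I L) B ≠ 0) : CovI I L B := by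
  intro u hu
  by_contra hno
  apply h
  apply mob_eq_zero _ u B hu
  intro A hA
  have hAB : A ⊆ B := hA.trans (Finset.erase_subset _ _)
  have key : (∃ b, MinNon I b ∧ b ⊆ L ∪ insert u A ∧ (b ∩ L).Nonempty) ↔
      (∃ b, MinNon I b ∧ b ⊆ L ∪ A ∧ (b ∩ L).Nonempty) := by
    constructor
    · rintro ⟨b, hb, hbs, hbL⟩
      refine ⟨b, hb, ?_, hbL⟩
      have hub : u ∉ b := by
        intro hub
        apply hno
        refine ⟨b, hb, hub, ?_, hbL⟩
        refine hbs.trans (Finset.union_subset_union subset_rfl ?_)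
        exact Finset.insert_subset hu hAB
      intro x hx
      rcases Finset.mem_union.mp (hbs hx) with h6 | h6
      · exact Finset.mem_union_left _ h6
      · rcases Finset.mem_insert.mp h6 with h7 | h7
        · exact absurd (h7 ▸ hx) hub
        · exact Finset.mem_union_right _ h7
    · rintro ⟨b, hb, hbs, hbL⟩
      exact ⟨b, hb, hbs.trans (Finset.union_subset_union subset_rfl (Finset.subset_insert _ _)),
        hbL⟩
  unfold comp
  by_cases h1 : ∃ b, MinNon I b ∧ b ⊆ L ∪ A ∧ (b ∩ L).Nonempty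
  · rw [if_pos h1, if_pos (key.mpr h1)]
  · rw [if_neg h1, if_neg (fun h => h1 (key.mp h))]

/-- The expansion of a link sum. -/
theorem Z_expand (hdown : ∀ A B, A ⊆ B → I B → I A) (lam : ℝ) (L S : Finset ι) :
    Z I lam L S = ∑ B ∈ S.powerset, mob (comp I L) B * ((-lam) ^ B.card * Z I lam B (S \ B)) := by
  classical
  have h1 : Z I lam L S =
      ∑ A ∈ S.powerset, (if I A then (-lam) ^ A.card else 0) * comp I L A := by
    unfold Z
    apply Finset.sum_congr rfl
    intro A _
    unfold comp
    by_cases h2 : I A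
    · by_cases h3 : ∃ b, MinNon I b ∧ b ⊆ L ∪ A ∧ (b ∩ L).Nonempty
      · have h4 : ¬ I (A ∪ L) := fun h => ((face_union_iff hdown L A).mp h).2 h3
        simp only [h2, h3, h4, if_true, if_false, mul_zero]
      · have h4 : I (A ∪ L) := (face_union_iff hdown L A).mpr ⟨h2, h3⟩
        simp only [h2, h3, h4, if_true, if_false, mul_one]
    · have h4 : ¬ I (A ∪ L) := fun h => h2 ((face_union_iff hdown L A).mp h).1
      simp only [h2, h4, if_false, zero_mul]
  rw [h1, sum_mul_eq]
  apply Finset.sum_congr rfl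
  intro B _
  congr 1
  unfold Z
  rw [Finset.mul_sum]
  apply Finset.sum_congr rfl
  intro A hA
  have hd : Disjoint A B := by
    rw [Finset.disjoint_left]
    intro x hx
    exact (Finset.mem_sdiff.mp (Finset.mem_powerset.mp hA hx)).2
  rw [Finset.card_union_of_disjoint hd, pow_add]
  split_ifs
  · ring
  · ring

theorem Z_eq_zero (hdown : ∀ A B, A ⊆ B → I B → I A) (lam : ℝ) (L S : Finset ι) (hL : ¬ I L) :
    Z I lam L S = 0 := by
  unfold Z
  apply Finset.sum_eq_zero
  intro A _
  rw [if_neg]
  exact fun h => hL (hdown _ _ Finset.subset_union_right h)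

theorem Z_insert (lam : ℝ) (S : Finset ι) (u : ι) (hu : u ∉ S) :
    Z I lam ∅ (insert u S) = Z I lam ∅ S - lam * Z I lam {u} S := by
  classical
  unfold Z
  rw [Finset.sum_powerset_insert hu, Finset.mul_sum, sub_eq_add_neg, ← Finset.sum_neg_distrib]
  congr 1
  apply Finset.sum_congr rfl
  intro A hA
  have huA : u ∉ A := fun h => hu (Finset.mem_powerset.mp hA h)
  rw [Finset.card_insert_of_notMem huA]
  have h1 : insert u A ∪ ∅ = A ∪ {u} := by
    rw [Finset.union_empty, Finset.insert_eq, Finset.union_comm]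
  rw [h1]
  split_ifs
  · ring
  · ring

/-- **Positivity of signed face sums.** -/
theorem Z_bounds (hdown : ∀ A B, A ⊆ B → I B → I A) (h00 : I ∅) (lam : ℝ) (h0 : 0 ≤ lam)
    (h4 : lam ≤ 1 / 4) (S : Finset ι)
    (H : ∀ L ⊆ S, I L → ∀ P : Finset (Finset ι),
      (∀ B ∈ P, B ⊆ S ∧ I B ∧ Disjoint L B ∧ CovI I L B) →
      ∑ B ∈ P, (8 * lam) ^ B.card ≤ 2 ^ L.card) (S' : Finset ι) :
    S' ⊆ S → 0 < Z I lam ∅ S' ∧ (∀ u ∈ S', Z I lam ∅ (S'.erase u) ≤ 2 * Z I lam ∅ S') ∧
      (∀ L ⊆ S, I L → Disjoint L S' → |Z I lam L S'| ≤ 2 ^ L.card * Z I lam ∅ S') := by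
  classical
  induction S' using Finset.strongInduction with
  | H S' ih =>
  intro hS'
  -- part (ii)
  have hii : ∀ u ∈ S', Z I lam ∅ (S'.erase u) ≤ 2 * Z I lam ∅ S' := by
    intro u hu
    have h1 := ih (S'.erase u) (Finset.erase_ssubset hu) ((Finset.erase_subset _ _).trans hS')
    have h2 : Z I lam ∅ S' = Z I lam ∅ (S'.erase u) - lam * Z I lam {u} (S'.erase u) := by
      rw [← Z_insert lam (S'.erase u) u (Finset.notMem_erase u S'), Finset.insert_erase hu]
    have h3 : |Z I lam {u} (S'.erase u)| ≤ 2 * Z I lam ∅ (S'.erase u) := by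
      by_cases hI : I {u}
      · have h5 := h1.2.2 {u} (by simpa using hS' hu) hI (by simp)
        simpa using h5
      · rw [Z_eq_zero hdown lam {u} _ hI]
        simpa using h1.1.le
    have h6 : Z I lam {u} (S'.erase u) ≤ 2 * Z I lam ∅ (S'.erase u) := (le_abs_self _).trans h3
    have h7 : lam * Z I lam {u} (S'.erase u) ≤ lam * (2 * Z I lam ∅ (S'.erase u)) :=
      mul_le_mul_of_nonneg_left h6 h0
    have h8 : lam * (2 * Z I lam ∅ (S'.erase u)) ≤ 1 / 4 * (2 * Z I lam ∅ (S'.erase u)) :=
      mul_le_mul_of_nonneg_right h4 (by linarith [h1.1])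
    linarith
  -- part (i)
  have hi : 0 < Z I lam ∅ S' := by
    rcases S'.eq_empty_or_nonempty with h | ⟨u, hu⟩
    · subst h
      unfold Z
      simp [h00]
    · have h1 := ih (S'.erase u) (Finset.erase_ssubset hu) ((Finset.erase_subset _ _).trans hS')
      have h2 := hii u hu
      linarith [h1.1]
  refine ⟨hi, hii, ?_⟩
  -- removing a set
  have hrem : ∀ B : Finset ι, B ⊆ S' → Z I lam ∅ (S' \ B) ≤ 2 ^ B.card * Z I lam ∅ S' := by
    intro B
    induction B using Finset.induction_on with
    | empty => intro _; simp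
    | insert u B hu ihB =>
      intro hB
      have hB' : B ⊆ S' := (Finset.subset_insert _ _).trans hB
      have huS : u ∈ S' \ B := Finset.mem_sdiff.mpr ⟨hB (Finset.mem_insert_self _ _), hu⟩
      have h1 : S' \ insert u B = (S' \ B).erase u := by
        ext x
        simp only [Finset.mem_sdiff, Finset.mem_insert, Finset.mem_erase, not_or]
        tauto
      have h2 : Z I lam ∅ ((S' \ B).erase u) ≤ 2 * Z I lam ∅ (S' \ B) := by
        by_cases h3 : S' \ B = S'
        · rw [h3]; rw [h3] at huS; exact hii u huS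
        · have h4 : S' \ B ⊂ S' := Finset.ssubset_iff_subset_ne.mpr ⟨Finset.sdiff_subset, h3⟩
          exact (ih (S' \ B) h4 (h4.1.trans hS')).2.1 u huS
      rw [h1, Finset.card_insert_of_notMem hu, pow_succ]
      linarith [ihB hB']
  intro L hLS hL hLd
  rw [Z_expand hdown lam L S']
  -- termwise bound
  have hterm : ∀ B ∈ S'.powerset,
      |mob (comp I L) B * ((-lam) ^ B.card * Z I lam B (S' \ B))| ≤
        (if I B ∧ CovI I L B then (8 * lam) ^ B.card else 0) * Z I lam ∅ S' := by
    intro B hB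
    have hB' : B ⊆ S' := Finset.mem_powerset.mp hB
    by_cases hIB : I B
    · by_cases hcov : CovI I L B
      · rw [if_pos ⟨hIB, hcov⟩, abs_mul, abs_mul, abs_pow, abs_neg, abs_of_nonneg h0]
        have h1 : |mob (comp I L) B| ≤ 2 ^ B.card := abs_mob_le _ (abs_comp_le I L) B
        have h2 : |Z I lam B (S' \ B)| ≤ 2 ^ B.card * Z I lam ∅ (S' \ B) := by
          rcases B.eq_empty_or_nonempty with h | hne
          · subst h
            rw [Finset.sdiff_empty, Finset.card_empty, pow_zero, one_mul, abs_of_pos hi]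
          · have h3 : S' \ B ⊂ S' := Finset.sdiff_ssubset hB' hne
            exact (ih (S' \ B) h3 (h3.1.trans hS')).2.2 B (hB'.trans hS') hIB
              Finset.disjoint_sdiff
        have h3 := hrem B hB'
        have h4 : |Z I lam B (S' \ B)| ≤ 2 ^ B.card * (2 ^ B.card * Z I lam ∅ S') :=
          h2.trans (mul_le_mul_of_nonneg_left h3 (by positivity))
        have h5 : |mob (comp I L) B| * (lam ^ B.card * |Z I lam B (S' \ B)|) ≤
            2 ^ B.card * (lam ^ B.card * (2 ^ B.card * (2 ^ B.card * Z I lam ∅ S'))) := by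
          apply mul_le_mul h1 _ (by positivity) (by positivity)
          exact mul_le_mul_of_nonneg_left h4 (by positivity)
        refine h5.trans (le_of_eq ?_)
        have h6 : (8 * lam) ^ B.card = 2 ^ B.card * (2 ^ B.card * (2 ^ B.card * lam ^ B.card)) := by
          rw [← mul_pow, ← mul_pow, ← mul_pow]
          congr 1
          ring
        rw [h6]
        ring
      · have h1 : mob (comp I L) B = 0 := by
          by_contra h
          exact hcov (cov_of_mob_ne_zero L B h)
        rw [h1, if_neg (fun h => hcov h.2)]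
        simp
    · rw [Z_eq_zero hdown lam B _ hIB, if_neg (fun h => hIB h.1)]
      simp
  calc |∑ B ∈ S'.powerset, mob (comp I L) B * ((-lam) ^ B.card * Z I lam B (S' \ B))|
      ≤ ∑ B ∈ S'.powerset, |mob (comp I L) B * ((-lam) ^ B.card * Z I lam B (S' \ B))| :=
        Finset.abs_sum_le_sum_abs _ _
    _ ≤ ∑ B ∈ S'.powerset, (if I B ∧ CovI I L B then (8 * lam) ^ B.card else 0) *
          Z I lam ∅ S' := Finset.sum_le_sum hterm
    _ = (∑ B ∈ S'.powerset.filter (fun B => I B ∧ CovI I L B), (8 * lam) ^ B.card) *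
          Z I lam ∅ S' := by
        rw [← Finset.sum_mul, Finset.sum_filter]
    _ ≤ 2 ^ L.card * Z I lam ∅ S' := by
        apply mul_le_mul_of_nonneg_right _ hi.le
        apply H L hLS hL
        intro B hB
        rw [Finset.mem_filter, Finset.mem_powerset] at hB
        exact ⟨hB.1.trans hS', hB.2.1, hLd.mono_right hB.1, hB.2.2⟩

end Pool.Agent.Helper91.Crit.Gas
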