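import Pool.Agent.Helper91.Crit.Nbc

/-!
# Families of vectors of bounded density have bounded critical exponent

Let `e i` be finitely many nonzero vectors of a finite dimensional space over a finite field such
that every subspace `U` contains at most `D * dim U` of them. If `T` is a space with at least
`2048 * D ^ 2` elements, then for all `t i` in `T` there is a linear map `x` into `T` with
`x (e i) ≠ t i` for all `i`.
-/

set_option autoImplicit false

open Finset Module

namespace Pool.Agent.Helper91.Crit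

universe u v

section

variable {F : Type*} [Field F] {V : Type u} [AddCommGroup V] [Module F V]
  {ι : Type v} [DecidableEq ι]

/-- Independent modulo a subspace. -/
def IndS (e : ι → V) (W : Submodule F V) (R : Finset ι) : Prop :=
  ∀ i ∈ R, e i ∉ W ⊔ Submodule.span F (e '' ((R.erase i : Finset ι) : Set ι))

open Classical in
/-- The weighted number of sets independent modulo a subspace. -/
noncomputable def XS [Fintype ι] (e : ι → V) (v : ℝ) (W : Submodule F V) : ℝ :=
  ∑ R ∈ Finset.univ.filter (fun R : Finset ι => IndS e W R), v ^ R.card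

theorem indMod_iff (e : ι → V) (W : Submodule F V) (L R : Finset ι) :
    (spanClo F (fun i => W.mkQ (e i))).IndMod L R ↔
      IndS e (W ⊔ Submodule.span F (e '' (L : Set ι))) R := by
  unfold Clo.IndMod IndS
  apply forall_congr'
  intro i
  apply forall_congr'
  intro _
  apply not_congr
  show W.mkQ (e i) ∈ Submodule.span F
    ((fun i => W.mkQ (e i)) '' ((L ∪ R.erase i : Finset ι) : Set ι)) ↔ _
  have h1 : (fun i => W.mkQ (e i)) '' ((L ∪ R.erase i : Finset ι) : Set ι) =
      W.mkQ '' (e '' ((L ∪ R.erase i : Finset ι) : Set ι)) := by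
    rw [Set.image_image]
  rw [h1, Submodule.span_image, ← Submodule.mem_comap, Submodule.comap_map_mkQ,
    Finset.coe_union, Set.image_union, Submodule.span_union, sup_assoc]

theorem X_eq [Fintype ι] (e : ι → V) (W : Submodule F V) (v : ℝ) (L : Finset ι) :
    (spanClo F (fun i => W.mkQ (e i))).X v L =
      XS e v (W ⊔ Submodule.span F (e '' (L : Set ι))) := by
  classical
  unfold Clo.X XS
  congr 1
  ext R
  rw [Finset.mem_filter, Finset.mem_filter, indMod_iff]

theorem XS_top [Fintype ι] (e : ι → V) (v : ℝ) : XS e v (⊤ : Submodule F V) = 1 := by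
  classical
  unfold XS
  have h1 : Finset.univ.filter (fun R : Finset ι => IndS e (⊤ : Submodule F V) R) = {∅} := by
    ext R
    rw [Finset.mem_filter, Finset.mem_singleton]
    constructor
    · rintro ⟨_, h⟩
      by_contra hne
      obtain ⟨i, hi⟩ := Finset.nonempty_iff_ne_empty.mpr hne
      apply h i hi
      rw [top_sup_eq]
      exact Submodule.mem_top
    · rintro rfl
      exact ⟨Finset.mem_univ _, fun i hi => absurd hi (Finset.notMem_empty i)⟩
  rw [h1, Finset.sum_singleton, Finset.card_empty, pow_zero]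

theorem XS_le [Fintype ι] (e : ι → V) (v : ℝ) (hv : 0 ≤ v) (W : Submodule F V) :
    XS e v W ≤ (1 + v) ^ Fintype.card ι := by
  classical
  unfold XS
  have h1 : ∑ R : Finset ι, v ^ R.card * 1 ^ (Fintype.card ι - R.card) =
      (v + 1) ^ Fintype.card ι := Fintype.sum_pow_mul_eq_add_pow ι v 1
  simp only [one_pow, mul_one] at h1
  rw [add_comm, ← h1]
  exact Finset.sum_le_sum_of_subset_of_nonneg (Finset.subset_univ _) (fun _ _ _ => by positivity)

end

theorem pow_lt_two (D : ℕ) (hD : 1 ≤ D) : (1 + 1 / (2 * (D : ℝ))) ^ D < 2 := by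
  have hD0 : (0 : ℝ) < D := by exact_mod_cast hD
  set v : ℝ := 1 / (2 * (D : ℝ)) with hv
  have hv0 : 0 < v := by positivity
  have hD1 : (1 : ℝ) ≤ D := by exact_mod_cast hD
  have hv1 : v ≤ 1 / 2 := by
    rw [hv]
    apply one_div_le_one_div_of_le (by norm_num)
    linarith
  have h1 : (1 : ℝ) - (D : ℝ) * v ≤ (1 - v) ^ D := by
    have h2 := one_add_mul_le_pow (a := -v) (by linarith) D
    have h3 : (1 : ℝ) + (D : ℝ) * -v = 1 - D * v := by ring
    have h4 : (1 : ℝ) + -v = 1 - v := by ring
    rw [h3, h4] at h2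
    exact h2
  have h2 : (D : ℝ) * v = 1 / 2 := by
    rw [hv]
    field_simp
  have h3 : (1 : ℝ) / 2 ≤ (1 - v) ^ D := by
    rw [h2] at h1
    linarith
  have h4 : (1 + v) ^ D * (1 - v) ^ D < 1 := by
    rw [← mul_pow]
    apply pow_lt_one₀
    · nlinarith
    · nlinarith
    · omega
  have h5 : 0 < (1 + v) ^ D := by positivity
  nlinarith

open Classical in
theorem exists_avoid_aux (D : ℕ) (hD : 1 ≤ D) (F : Type*) [Field F] [Finite F]
    (T : Type*) [AddCommGroup T] [Module F T] [Finite T] (hT : 2048 * D ^ 2 ≤ Nat.card T)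
    (n : ℕ) : ∀ (V : Type u) [AddCommGroup V] [Module F V] [FiniteDimensional F V]
      (_ : finrank F V = n) (ι : Type v) [Fintype ι] [LinearOrder ι] (e : ι → V)
      (_ : ∀ i, e i ≠ 0)
      (_ : ∀ U : Submodule F V, (Finset.univ.filter (fun i => e i ∈ U)).card ≤
        D * finrank F U) (t : ι → T), ∃ x : V →ₗ[F] T, ∀ i, x (e i) ≠ t i := by
  induction n using Nat.strong_induction_on with
  | _ n ih =>
  intro V _ _ _ hn ι _ _ e he hdens t
  rcases Nat.eq_zero_or_pos n with h0 | hpos
  · rw [h0] at hn
    have hsub : Subsingleton V := finrank_zero_iff.mp hn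
    exact ⟨0, fun i => absurd (Subsingleton.elim _ _) (he i)⟩
  have hD0 : (0 : ℝ) < D := by exact_mod_cast hD
  have hD1 : (1 : ℝ) ≤ D := by exact_mod_cast hD
  set v : ℝ := 1 / (2 * (D : ℝ)) with hv
  have hv0 : 0 < v := by positivity
  have hfinV : Finite V := Module.finite_of_finite F
  have hfinS : Finite (Submodule F V) :=
    Finite.of_injective (fun U : Submodule F V => (U : Set V)) SetLike.coe_injective
  obtain ⟨W, hW⟩ := Finite.exists_min
    (fun W : Submodule F V => XS e v W * (2 : ℝ) ^ finrank F W)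
  -- the extremal subspace is proper
  have hWtop : W ≠ ⊤ := by
    intro h
    have h1 := hW ⊥
    rw [h, XS_top, finrank_top, finrank_bot, pow_zero, mul_one, one_mul, hn] at h1
    have h2 := XS_le e v hv0.le (⊥ : Submodule F V)
    have h3 : Fintype.card ι ≤ D * n := by
      have h4 := hdens ⊤
      rw [finrank_top, hn] at h4
      simpa using h4
    have h4 : (1 + v) ^ Fintype.card ι ≤ (1 + v) ^ (D * n) :=
      pow_le_pow_right₀ (by linarith) h3
    have h5 : (1 + v) ^ (D * n) < 2 ^ n := by
      rw [pow_mul]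
      exact pow_lt_pow_left₀ (pow_lt_two D hD) (by positivity) (by omega)
    linarith
  have hWlt : finrank F W < n := by
    rw [← hn]
    exact Submodule.finrank_lt hWtop
  -- the maps on `W`
  have hcol : ∃ x0 : W →ₗ[F] T, ∀ i : {i // e i ∈ W}, x0 ⟨e i.1, i.2⟩ ≠ t i.1 := by
    apply ih (finrank F W) hWlt W rfl {i // e i ∈ W} (fun i => ⟨e i.1, i.2⟩) _ _ (fun i => t i.1)
    · intro i h
      apply he i.1
      have := congrArg Subtype.val h
      simpa using this
    · intro U
      have h1 := hdens (U.map W.subtype)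
      have h2 : finrank F (U.map W.subtype) = finrank F U := Submodule.finrank_map_subtype_eq W U
      rw [h2] at h1
      refine le_trans ?_ h1
      apply Finset.card_le_card_of_injOn (fun i : {i // e i ∈ W} => i.1)
      · intro i hi
        rw [Finset.mem_coe, Finset.mem_filter] at hi ⊢
        refine ⟨Finset.mem_univ _, ?_⟩
        exact ⟨⟨e i.1, i.2⟩, hi.2, rfl⟩
      · intro i _ j _ h
        exact Subtype.ext h
  obtain ⟨x0, hx0⟩ := hcol
  obtain ⟨x1, hx1⟩ := x0.exists_extend
  -- the quotient
  have hfinQ : Finite (V ⧸ W) := Module.finite_of_finite F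
  set e' : ι → V ⧸ W := fun i => W.mkQ (e i) with he'
  have hE : ∀ L : Finset ι, (spanClo F e').X v ∅ ≤ 2 ^ L.card * (spanClo F e').X v L := by
    intro L
    rw [he', X_eq, X_eq]
    have h1 : W ⊔ Submodule.span F (e '' ((∅ : Finset ι) : Set ι)) = W := by
      simp
    rw [h1]
    have h2 := hW (W ⊔ Submodule.span F (e '' (L : Set ι)))
    have h3 : finrank F (W ⊔ Submodule.span F (e '' (L : Set ι)) : Submodule F V) ≤
        finrank F W + L.card := by
      have h4 := Submodule.finrank_add_le_finrank_add_finrank W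
        (Submodule.span F (e '' (L : Set ι)))
      have h5 : finrank F (Submodule.span F (e '' (L : Set ι))) ≤ L.card := by
        have h6 : e '' (L : Set ι) = ((L.image e : Finset V) : Set V) := by
          rw [Finset.coe_image]
        rw [h6]
        exact (finrank_span_finset_le_card _).trans Finset.card_image_le
      omega
    have h4 : (2 : ℝ) ^ finrank F (W ⊔ Submodule.span F (e '' (L : Set ι)) : Submodule F V) ≤
        2 ^ finrank F W * 2 ^ L.card := by
      rw [← pow_add]
      exact pow_le_pow_right₀ (by norm_num) h3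
    have hXpos : 0 < XS e v (W ⊔ Submodule.span F (e '' (L : Set ι))) := by
      rw [← X_eq]
      exact Clo.X_pos _ v hv0.le L
    have h5 : XS e v W * 2 ^ finrank F W ≤
        XS e v (W ⊔ Submodule.span F (e '' (L : Set ι))) * (2 ^ finrank F W * 2 ^ L.card) :=
      h2.trans (mul_le_mul_of_nonneg_left h4 hXpos.le)
    have h6 : (0 : ℝ) < 2 ^ finrank F W := by positivity
    have h7 : XS e v W * 2 ^ finrank F W ≤
        (2 ^ L.card * XS e v (W ⊔ Submodule.span F (e '' (L : Set ι)))) * 2 ^ finrank F W := by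
      refine h5.trans (le_of_eq ?_)
      ring
    exact le_of_mul_le_mul_right h7 h6
  have hA := Clo.noCol_sum (M := spanClo F e') v hv0.le hE
  have hQ : (2048 : ℝ) * (D : ℝ) ^ 2 ≤ Nat.card T := by exact_mod_cast hT
  have hQ0 : (0 : ℝ) < Nat.card T := lt_of_lt_of_le (by positivity) hQ
  have hT4 : 4 ≤ Nat.card T := by
    have h1 : 1 ≤ D ^ 2 := Nat.one_le_pow _ _ hD
    omega
  have hv12 : v ≤ 1 / 2 := by
    rw [hv]
    apply one_div_le_one_div_of_le (by norm_num)
    linarith
  have hlam : 8 * (Nat.card T : ℝ)⁻¹ ≤ ((v / 2) / 4) ^ 2 := by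
    have h1 : ((v / 2) / 4) ^ 2 = 8 * (2048 * (D : ℝ) ^ 2)⁻¹ := by
      rw [hv]
      field_simp
      norm_num
    rw [h1]
    apply mul_le_mul_of_nonneg_left _ (by norm_num)
    exact inv_anti₀ (by positivity) hQ
  obtain ⟨x2, hx2⟩ := exists_avoid_of_noCol e' (fun i => t i - x1 (e i)) hT4
    (Finset.univ.filter (fun i => e' i ≠ 0))
    (fun i hi => (Finset.mem_filter.mp hi).2) (v / 2) (by positivity) (by linarith) hA hlam
  refine ⟨x1 + x2.comp W.mkQ, ?_⟩
  intro i
  rw [LinearMap.add_apply, LinearMap.comp_apply]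
  by_cases hi : e i ∈ W
  · have h1 : W.mkQ (e i) = 0 := by
      rw [Submodule.mkQ_apply, Submodule.Quotient.mk_eq_zero]
      exact hi
    rw [h1, map_zero, add_zero]
    have h2 := hx0 ⟨i, hi⟩
    have h3 : x1 (e i) = x0 ⟨e i, hi⟩ := by
      rw [← hx1]
      rfl
    rw [h3]
    exact h2
  · have h1 : e' i ≠ 0 := by
      intro h
      apply hi
      rw [he'] at h
      simpa using h
    have h2 := hx2 i (Finset.mem_filter.mpr ⟨Finset.mem_univ _, h1⟩)
    intro h3
    apply h2
    rw [← h3]
    show x2 (W.mkQ (e i)) = _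
    abel

/-- **Bounded density implies bounded critical exponent, with shifts.** -/
theorem exists_avoid (D : ℕ) (hD : 1 ≤ D) {F : Type*} [Field F] [Finite F]
    {T : Type*} [AddCommGroup T] [Module F T] [Finite T] (hT : 2048 * D ^ 2 ≤ Nat.card T)
    {V : Type u} [AddCommGroup V] [Module F V] [FiniteDimensional F V]
    {ι : Type v} [Finite ι] (e : ι → V) (he : ∀ i, e i ≠ 0)
    (hdens : ∀ U : Submodule F V, Nat.card {i // e i ∈ U} ≤ D * finrank F U) (t : ι → T) :
    ∃ x : V →ₗ[F] T, ∀ i, x (e i) ≠ t i := by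
  classical
  have := Fintype.ofFinite ι
  let _ : LinearOrder ι := LinearOrder.lift' (Fintype.equivFin ι) (Fintype.equivFin ι).injective
  apply exists_avoid_aux D hD F T hT (finrank F V) V rfl ι e he _ t
  intro U
  have h1 := hdens U
  rw [Nat.card_eq_fintype_card, Fintype.card_subtype] at h1
  exact h1

end Pool.Agent.Helper91.Crit
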