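import Pool.Agent.Helper91.Crit.Arb
import Pool.Agent.Helper91.Crit.Gas

/-!
# Linear maps avoiding prescribed values: the alternating sum over a complex of independent sets
-/

set_option autoImplicit false

open Finset

namespace Pool.Agent.Helper91.Crit

open Classical in
/-- The closure operator of a family of vectors. -/
def spanClo (F : Type*) [Field F] {V : Type*} [AddCommGroup V] [Module F V] {ι : Type*}
    [DecidableEq ι] (e : ι → V) : Clo ι where
  cl A := {i | e i ∈ Submodule.span F (e '' (A : Set ι))}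
  sub A i hi := Submodule.subset_span ⟨i, hi, rfl⟩
  trans A B h i hi := by
    have h1 : Submodule.span F (e '' (A : Set ι)) ≤ Submodule.span F (e '' (B : Set ι)) := by
      rw [Submodule.span_le]
      rintro x ⟨j, hj, rfl⟩
      exact h j hj
    exact h1 hi
  exch A i j h1 h2 := by
    simp only [Set.mem_ofPred_eq, Finset.coe_insert, Set.image_insert_eq] at h1 h2 ⊢
    exact mem_span_insert_exchange h1 h2

section

variable {F : Type*} [Field F] {V : Type*} [AddCommGroup V] [Module F V]
  {T : Type*} [AddCommGroup T] [Module F T]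

/-- Changing the value at one vector outside a subspace. -/
theorem exists_modify (W : Submodule F V) (a : V) (ha : a ∉ W) (x : V →ₗ[F] T) (s : T) :
    ∃ x' : V →ₗ[F] T, (∀ w ∈ W, x' w = x w) ∧ x' a = s := by
  obtain ⟨g, hg, hga⟩ := LinearMap.exists_extend_of_notMem (x.comp W.subtype) ha s
  refine ⟨g, ?_, hga⟩
  intro w hw
  have := LinearMap.congr_fun hg ⟨w, hw⟩
  simpa using this

/-- Two maps which agree on a set agree on its span. -/
theorem eq_of_mem_span {ι : Type*} (e : ι → V) (A : Set ι) (x x' : V →ₗ[F] T)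
    (h : ∀ a ∈ A, x (e a) = x' (e a)) {v : V} (hv : v ∈ Submodule.span F (e '' A)) :
    x v = x' v := by
  have h1 : Submodule.span F (e '' A) ≤ LinearMap.eqLocus x x' := by
    rw [Submodule.span_le]
    rintro w ⟨a, ha, rfl⟩
    exact h a ha
  exact h1 hv

variable {ι : Type*} [LinearOrder ι]

/-- The condition at `f`. -/
def OK (e : ι → V) (t : ι → T) (A : Finset ι) (f : ι) : Prop :=
  ∃ x : V →ₗ[F] T, (∀ a ∈ A, f < a → x (e a) = t a) ∧ x (e f) ≠ t f

variable (F) in
/-- The complex: independent sets which satisfy the condition at every element of `S`. -/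
def Face (e : ι → V) (t : ι → T) (S A : Finset ι) : Prop :=
  (spanClo F e).Ind A ∧ ∀ f ∈ S, OK (F := F) e t A f

theorem OK.mono {e : ι → V} {t : ι → T} {A B : Finset ι} {f : ι} (h : OK (F := F) e t B f)
    (hAB : A ⊆ B) : OK (F := F) e t A f := by
  obtain ⟨x, hx, hf⟩ := h
  exact ⟨x, fun a ha hfa => hx a (hAB ha) hfa, hf⟩

theorem Face.mono {e : ι → V} {t : ι → T} {S A B : Finset ι} (hAB : A ⊆ B)
    (h : Face F e t S B) : Face F e t S A :=
  ⟨h.1.mono hAB, fun f hf => (h.2 f hf).mono hAB⟩

/-- An independent family can be mapped anywhere. -/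
theorem exists_map_of_ind (e : ι → V) (t : ι → T) (A : Finset ι) :
    (spanClo F e).Ind A → ∃ x : V →ₗ[F] T, ∀ a ∈ A, x (e a) = t a := by
  induction A using Finset.induction_on with
  | empty => intro _; exact ⟨0, by simp⟩
  | insert i A hi ih =>
    intro hA
    obtain ⟨x, hx⟩ := ih (hA.mono (Finset.subset_insert _ _))
    have h1 : e i ∉ Submodule.span F (e '' (A : Set ι)) := by
      have h2 := hA i (Finset.mem_insert_self _ _)
      rwa [Finset.erase_insert hi] at h2
    obtain ⟨x', hx', hi'⟩ := exists_modify _ _ h1 x (t i)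
    refine ⟨x', ?_⟩
    intro a ha
    rcases Finset.mem_insert.mp ha with h | h
    · rw [h]; exact hi'
    · rw [hx' _ (Submodule.subset_span ⟨a, h, rfl⟩)]
      exact hx a h

/-- **Minimal nonfaces are circuits or circuits minus one element.** -/
theorem circ_of_minNon {e : ι → V} {t : ι → T} {S b : Finset ι}
    (hb : Gas.MinNon (Face F e t S) b) (hbne : b.Nonempty) :
    ∃ (C : Finset ι) (m : ι), (spanClo F e).Circ C ∧ b ⊆ C ∧ C ⊆ insert m b := by
  by_cases hI : (spanClo F e).Ind b
  · have h1 : ∃ f ∈ S, ¬ OK (F := F) e t b f := by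
      by_contra h
      push Not at h
      exact hb.1 ⟨hI, h⟩
    obtain ⟨f, hfS, hf⟩ := h1
    have hgt : ∀ a ∈ b, f < a := by
      by_contra h
      push Not at h
      obtain ⟨a, ha, haf⟩ := h
      have h2 : b.erase a ⊂ b := Finset.erase_ssubset ha
      obtain ⟨x, hx, hxf⟩ := (hb.2 _ h2).2 f hfS
      apply hf
      refine ⟨x, ?_, hxf⟩
      intro a' ha' hfa'
      apply hx a' _ hfa'
      rw [Finset.mem_erase]
      refine ⟨?_, ha'⟩
      intro h3
      rw [h3] at hfa'
      exact absurd hfa' (not_lt.mpr haf)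
    have hfb : f ∉ b := fun h => lt_irrefl f (hgt f h)
    obtain ⟨x0, hx0⟩ := exists_map_of_ind e t b hI
    have hspan : f ∈ (spanClo F e).cl b := by
      by_contra h
      have h2 : e f ∉ Submodule.span F (e '' (b : Set ι)) := h
      -- need a value different from `t f`
      obtain ⟨a, ha⟩ := hbne
      have h3 : ∃ s : T, s ≠ t f := by
        by_contra h4
        push Not at h4
        -- `T` is trivial: then no face at all
        have h5 : b.erase a ⊂ b := Finset.erase_ssubset ha
        obtain ⟨x, _, hxf⟩ := (hb.2 _ h5).2 f hfS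
        exact hxf (h4 _)
      obtain ⟨s, hs⟩ := h3
      obtain ⟨x', hx', hxf'⟩ := exists_modify _ _ h2 x0 s
      apply hf
      refine ⟨x', ?_, ?_⟩
      · intro a' ha' _
        rw [hx' _ (Submodule.subset_span ⟨a', ha', rfl⟩)]
        exact hx0 a' ha'
      · rw [hxf']; exact hs
    refine ⟨insert f b, f, ⟨?_, ?_⟩, Finset.subset_insert _ _, subset_rfl⟩
    · intro h
      apply h f (Finset.mem_insert_self _ _)
      rwa [Finset.erase_insert hfb]
    · intro c hc
      rcases Finset.mem_insert.mp hc with h | h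
      · rw [h, Finset.erase_insert hfb]; exact hI
      · have hfc : f ≠ c := fun h' => hfb (h' ▸ h)
        rw [Finset.erase_insert_of_ne hfc]
        apply (hI.mono (Finset.erase_subset _ _)).insert
        intro h2
        obtain ⟨x, hx, hxf⟩ := (hb.2 _ (Finset.erase_ssubset h)).2 f hfS
        have h3 : e c ∉ Submodule.span F (e '' ((b.erase c : Finset ι) : Set ι)) := hI c h
        obtain ⟨x', hx', hxc⟩ := exists_modify _ _ h3 x (t c)
        apply hf
        refine ⟨x', ?_, ?_⟩
        · intro a ha hfa
          by_cases hac : a = c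
          · rw [hac]; exact hxc
          · have ha' : a ∈ b.erase c := Finset.mem_erase.mpr ⟨hac, ha⟩
            rw [hx' _ (Submodule.subset_span ⟨a, ha', rfl⟩)]
            exact hx a ha' hfa
        · rw [hx' _ h2]
          exact hxf
  · obtain ⟨u, hu⟩ := hbne
    refine ⟨b, u, ⟨hI, ?_⟩, subset_rfl, Finset.subset_insert _ _⟩
    intro c hc
    exact (hb.2 _ (Finset.erase_ssubset hc)).1

theorem cov_of_covI {e : ι → V} {t : ι → T} {S L B : Finset ι}
    (h : Gas.CovI (Face F e t S) L B) : (spanClo F e).Cov L B := by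
  intro u hu
  obtain ⟨b, hb, hub, hbs, hbL⟩ := h u hu
  obtain ⟨C, m, hC, hbC, hCm⟩ := circ_of_minNon hb ⟨u, hub⟩
  refine ⟨C, m, hC, hbC hub, ?_, ?_⟩
  · obtain ⟨l, hl⟩ := hbL
    rw [Finset.mem_inter] at hl
    exact ⟨l, Finset.mem_inter.mpr ⟨hbC hl.1, hl.2⟩⟩
  · exact hCm.trans (Finset.insert_subset_insert _ hbs)

variable (F) in
/-- The number of linear maps with prescribed values on `A` avoiding values on `R`. -/
noncomputable def cnt (e : ι → V) (t : ι → T) (A R : Finset ι) : ℕ :=
  Set.ncard {x : V →ₗ[F] T | (∀ a ∈ A, x (e a) = t a) ∧ ∀ r ∈ R, x (e r) ≠ t r}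

variable [Finite V] [Finite T]

theorem cnt_split (e : ι → V) (t : ι → T) (A R : Finset ι) (f : ι) :
    cnt F e t (insert f A) R + cnt F e t A (insert f R) = cnt F e t A R := by
  have hfin : Finite (V →ₗ[F] T) := DFunLike.finite _
  unfold cnt
  rw [← Set.ncard_inter_add_ncard_sdiff_eq_ncard
    {x : V →ₗ[F] T | (∀ a ∈ A, x (e a) = t a) ∧ ∀ r ∈ R, x (e r) ≠ t r}
    {x : V →ₗ[F] T | x (e f) = t f} (Set.toFinite _)]
  congr 2
  · ext x
    simp only [Set.mem_ofPred_eq, Set.mem_inter_iff, Finset.mem_insert, forall_eq_or_imp]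
    tauto
  · ext x
    simp only [Set.mem_ofPred_eq, Set.mem_sdiff, Finset.mem_insert, forall_eq_or_imp]
    tauto

omit [Finite V] [Finite T] in
theorem cnt_scale (e : ι → V) (t : ι → T) (A : Finset ι) (f : ι)
    (hf : e f ∉ Submodule.span F (e '' (A : Set ι))) :
    cnt F e t A ∅ = Nat.card T * cnt F e t (insert f A) ∅ := by
  obtain ⟨φ, hφf, hφA⟩ := Submodule.exists_le_ker_of_notMem hf
  set ψ : V →ₗ[F] F := (φ (e f))⁻¹ • φ with hψ
  have h1 : ψ (e f) = 1 := by
    rw [hψ, LinearMap.smul_apply, smul_eq_mul, inv_mul_cancel₀ hφf]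
  have h2 : ∀ a ∈ A, ψ (e a) = 0 := by
    intro a ha
    rw [hψ, LinearMap.smul_apply, smul_eq_mul]
    have h3 : φ (e a) = 0 := hφA (Submodule.subset_span ⟨a, ha, rfl⟩)
    rw [h3, mul_zero]
  unfold cnt
  rw [← Nat.card_coe_set_eq, ← Nat.card_coe_set_eq, ← Nat.card_prod]
  apply Nat.card_congr
  refine
    { toFun := fun x => (x.1 (e f), ⟨x.1 - ψ.smulRight (x.1 (e f) - t f), ?_, ?_⟩)
      invFun := fun p => ⟨p.2.1 + ψ.smulRight (p.1 - t f), ?_, ?_⟩
      left_inv := ?_
      right_inv := ?_ }
  · intro a ha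
    rcases Finset.mem_insert.mp ha with h | h
    · rw [h, LinearMap.sub_apply, LinearMap.smulRight_apply, h1, one_smul]
      abel
    · rw [LinearMap.sub_apply, LinearMap.smulRight_apply, h2 a h, zero_smul, sub_zero]
      exact x.2.1 a h
  · intro r hr
    exact absurd hr (Finset.notMem_empty r)
  · intro a ha
    rw [LinearMap.add_apply, LinearMap.smulRight_apply, h2 a ha, zero_smul, add_zero]
    exact p.2.2.1 a (Finset.mem_insert_of_mem ha)
  · intro r hr
    exact absurd hr (Finset.notMem_empty r)
  · intro x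
    apply Subtype.ext
    simp
  · intro p
    have h3 : p.2.1 (e f) = t f := p.2.2.1 f (Finset.mem_insert_self _ _)
    apply Prod.ext
    · simp only [LinearMap.add_apply, LinearMap.smulRight_apply, h1, one_smul, h3]
      abel
    · apply Subtype.ext
      simp only [LinearMap.add_apply, LinearMap.smulRight_apply, h1, one_smul, h3]
      simp

theorem cnt_eq_zero (e : ι → V) (t : ι → T) (A R : Finset ι) (f : ι)
    (hf : ∀ x : V →ₗ[F] T, (∀ a ∈ A, x (e a) = t a) → x (e f) = t f) :
    cnt F e t A (insert f R) = 0 := by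
  have hfin : Finite (V →ₗ[F] T) := DFunLike.finite _
  unfold cnt
  rw [Set.ncard_eq_zero (Set.toFinite _)]
  ext x
  simp only [Set.mem_ofPred_eq, Set.mem_empty_iff_false, iff_false]
  rintro ⟨h1, h2⟩
  exact h2 f (Finset.mem_insert_self _ _) (hf x h1)

theorem cnt_insert_eq (e : ι → V) (t : ι → T) (A R : Finset ι) (f : ι)
    (hf : ∀ x : V →ₗ[F] T, (∀ a ∈ A, x (e a) = t a) → x (e f) ≠ t f) :
    cnt F e t A (insert f R) = cnt F e t A R := by
  have h1 := cnt_split (F := F) e t A R f
  have h2 : cnt F e t (insert f A) R = 0 := by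
    have hfin : Finite (V →ₗ[F] T) := DFunLike.finite _
    unfold cnt
    rw [Set.ncard_eq_zero (Set.toFinite _)]
    ext x
    simp only [Set.mem_ofPred_eq, Set.mem_empty_iff_false, iff_false]
    rintro ⟨h3, h4⟩
    exact hf x (fun a ha => h3 a (Finset.mem_insert_of_mem ha))
      (h3 f (Finset.mem_insert_self _ _))
  omega

omit [Finite V] [Finite T] in
/-- The number of maps with prescribed values on an independent set. -/
theorem cnt_ind (e : ι → V) (t : ι → T) (A : Finset ι) :
    (spanClo F e).Ind A →
      cnt F e t ∅ ∅ = Nat.card T ^ A.card * cnt F e t A ∅ := by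
  induction A using Finset.induction_on with
  | empty => intro _; simp
  | insert i A hi ih =>
    intro hA
    have h1 := ih (hA.mono (Finset.subset_insert _ _))
    have h2 : e i ∉ Submodule.span F (e '' (A : Set ι)) := by
      have h2 := hA i (Finset.mem_insert_self _ _)
      rwa [Finset.erase_insert hi] at h2
    rw [h1, cnt_scale e t A i h2, Finset.card_insert_of_notMem hi, pow_succ, mul_assoc]

open Classical in
/-- **The alternating sum.** -/
theorem cnt_expand (e : ι → V) (t : ι → T) (hT : 2 ≤ Nat.card T) (R : Finset ι) :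
    ∀ A : Finset ι, (spanClo F e).Ind A → (∀ a ∈ A, ∀ r ∈ R, r < a) →
      (cnt F e t A R : ℝ) = (cnt F e t ∅ ∅ : ℝ) * (((Nat.card T : ℝ)⁻¹) ^ A.card *
        ∑ B ∈ R.powerset, if (spanClo F e).Ind (B ∪ A) ∧
          ∀ f ∈ R, OK (F := F) e t (B ∪ A) f then (-(Nat.card T : ℝ)⁻¹) ^ B.card else 0) := by
  have hQ : (Nat.card T : ℝ) ≠ 0 := by
    have : (0 : ℝ) < Nat.card T := by exact_mod_cast (by omega : 0 < Nat.card T)
    exact this.ne'
  induction R using Finset.induction_on_max with
  | empty =>
    intro A hA _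
    rw [Finset.powerset_empty, Finset.sum_singleton, if_pos]
    · rw [Finset.card_empty, pow_zero, mul_one, cnt_ind e t A hA]
      push_cast
      rw [mul_comm ((Nat.card T : ℝ) ^ A.card), mul_assoc, ← mul_pow, mul_inv_cancel₀ hQ,
        one_pow, mul_one]
    · refine ⟨by simpa using hA, ?_⟩
      intro f hf
      exact absurd hf (Finset.notMem_empty f)
  | insert f R hmax ih =>
    intro A hA hAR
    have hfR : f ∉ R := fun h => lt_irrefl f (hmax f h)
    have hAf : ∀ a ∈ A, f < a := fun a ha => hAR a ha f (Finset.mem_insert_self _ _)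
    have hfA : f ∉ A := fun h => lt_irrefl f (hAf f h)
    have hAR' : ∀ a ∈ A, ∀ r ∈ R, r < a := fun a ha r hr =>
      hAR a ha r (Finset.mem_insert_of_mem hr)
    -- the condition at `f` depends on `A` only
    have hOKf : ∀ B : Finset ι, B ⊆ insert f R →
        (OK (F := F) e t (B ∪ A) f ↔ OK (F := F) e t A f) := by
      intro B hB
      constructor
      · intro h
        exact h.mono Finset.subset_union_right
      · rintro ⟨x, hx, hxf⟩
        refine ⟨x, ?_, hxf⟩
        intro a ha hfa
        rcases Finset.mem_union.mp ha with h | h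
        · rcases Finset.mem_insert.mp (hB h) with h1 | h1
          · exact absurd (h1 ▸ hfa) (lt_irrefl _)
          · exact absurd hfa (not_lt.mpr (hmax a h1).le)
        · exact hx a h hfa
    rw [Finset.sum_powerset_insert hfR]
    have hfirst : OK (F := F) e t A f →
        (∑ B ∈ R.powerset, if (spanClo F e).Ind (B ∪ A) ∧
          ∀ g ∈ insert f R, OK (F := F) e t (B ∪ A) g then (-(Nat.card T : ℝ)⁻¹) ^ B.card else 0) =
        ∑ B ∈ R.powerset, if (spanClo F e).Ind (B ∪ A) ∧
          ∀ g ∈ R, OK (F := F) e t (B ∪ A) g then (-(Nat.card T : ℝ)⁻¹) ^ B.card else 0 := by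
      intro hOK
      apply Finset.sum_congr rfl
      intro B hB
      have hB' : B ⊆ insert f R := (Finset.mem_powerset.mp hB).trans (Finset.subset_insert _ _)
      have h1 : ((spanClo F e).Ind (B ∪ A) ∧ ∀ g ∈ insert f R, OK (F := F) e t (B ∪ A) g) ↔
          ((spanClo F e).Ind (B ∪ A) ∧ ∀ g ∈ R, OK (F := F) e t (B ∪ A) g) := by
        constructor
        · rintro ⟨h2, h3⟩
          exact ⟨h2, fun g hg => h3 g (Finset.mem_insert_of_mem hg)⟩
        · rintro ⟨h2, h3⟩
          refine ⟨h2, ?_⟩
          intro g hg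
          rcases Finset.mem_insert.mp hg with h | h
          · rw [h]
            exact (hOKf B hB').mpr hOK
          · exact h3 g h
      by_cases h2 : (spanClo F e).Ind (B ∪ A) ∧ ∀ g ∈ R, OK (F := F) e t (B ∪ A) g
      · rw [if_pos h2, if_pos (h1.mpr h2)]
      · rw [if_neg h2, if_neg (fun h => h2 (h1.mp h))]
    by_cases hOK : OK (F := F) e t A f
    · by_cases hspan : e f ∈ Submodule.span F (e '' (A : Set ι))
      · -- the value at `f` is forced and different from `t f`
        obtain ⟨x0, hx0, hx0f⟩ := hOK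
        have hcnt : cnt F e t A (insert f R) = cnt F e t A R := by
          apply cnt_insert_eq
          intro x hx hxf
          apply hx0f
          rw [← hxf]
          apply eq_of_mem_span e (A : Set ι) x0 x _ hspan
          intro a ha
          rw [hx a ha, hx0 a ha (hAf a ha)]
        have hsecond : (∑ B ∈ R.powerset, if (spanClo F e).Ind (insert f B ∪ A) ∧
            ∀ g ∈ insert f R, OK (F := F) e t (insert f B ∪ A) g then
              (-(Nat.card T : ℝ)⁻¹) ^ (insert f B).card else 0) = 0 := by
          apply Finset.sum_eq_zero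
          intro B hB
          rw [if_neg]
          rintro ⟨h1, _⟩
          apply h1 f (Finset.mem_union_left _ (Finset.mem_insert_self _ _))
          have h2 : A ⊆ (insert f B ∪ A).erase f := by
            intro a ha
            rw [Finset.mem_erase]
            exact ⟨fun h => hfA (h ▸ ha), Finset.mem_union_right _ ha⟩
          exact (spanClo F e).mono h2 hspan
        rw [hcnt, hsecond, add_zero, hfirst ⟨x0, hx0, hx0f⟩]
        exact ih A hA hAR'
      · -- deletion and contraction
        have hIA : (spanClo F e).Ind (insert f A) := hA.insert hspan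
        have hfAR : ∀ a ∈ insert f A, ∀ r ∈ R, r < a := by
          intro a ha r hr
          rcases Finset.mem_insert.mp ha with h | h
          · rw [h]; exact hmax r hr
          · exact hAR' a h r hr
        have h1 := cnt_split (F := F) e t A R f
        have h2 : (cnt F e t A (insert f R) : ℝ) =
            (cnt F e t A R : ℝ) - (cnt F e t (insert f A) R : ℝ) := by
          rw [← h1]
          push_cast
          ring
        have hsecond : (∑ B ∈ R.powerset, if (spanClo F e).Ind (insert f B ∪ A) ∧
            ∀ g ∈ insert f R, OK (F := F) e t (insert f B ∪ A) g then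
              (-(Nat.card T : ℝ)⁻¹) ^ (insert f B).card else 0) =
            (-(Nat.card T : ℝ)⁻¹) * ∑ B ∈ R.powerset, if (spanClo F e).Ind (B ∪ insert f A) ∧
            ∀ g ∈ R, OK (F := F) e t (B ∪ insert f A) g then
              (-(Nat.card T : ℝ)⁻¹) ^ B.card else 0 := by
          rw [Finset.mul_sum]
          apply Finset.sum_congr rfl
          intro B hB
          have hBR : B ⊆ R := Finset.mem_powerset.mp hB
          have hfB : f ∉ B := fun h => hfR (hBR h)
          have h3 : insert f B ∪ A = B ∪ insert f A := by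
            rw [Finset.insert_union, Finset.union_insert]
          have h4 : OK (F := F) e t (B ∪ insert f A) f := by
            rw [← h3]
            exact (hOKf _ (Finset.insert_subset_insert _ hBR)).mpr hOK
          have h5 : ((spanClo F e).Ind (B ∪ insert f A) ∧
              ∀ g ∈ insert f R, OK (F := F) e t (B ∪ insert f A) g) ↔
              ((spanClo F e).Ind (B ∪ insert f A) ∧
              ∀ g ∈ R, OK (F := F) e t (B ∪ insert f A) g) := by
            constructor
            · rintro ⟨h6, h7⟩
              exact ⟨h6, fun g hg => h7 g (Finset.mem_insert_of_mem hg)⟩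
            · rintro ⟨h6, h7⟩
              refine ⟨h6, ?_⟩
              intro g hg
              rcases Finset.mem_insert.mp hg with h | h
              · rw [h]; exact h4
              · exact h7 g h
          rw [h3, Finset.card_insert_of_notMem hfB, pow_succ]
          by_cases h6 : (spanClo F e).Ind (B ∪ insert f A) ∧
              ∀ g ∈ R, OK (F := F) e t (B ∪ insert f A) g
          · rw [if_pos h6, if_pos (h5.mpr h6)]
            ring
          · rw [if_neg h6, if_neg (fun h => h6 (h5.mp h)), mul_zero]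
        rw [h2, hfirst hOK, hsecond, ih A hA hAR', ih (insert f A) hIA hfAR,
          Finset.card_insert_of_notMem hfA, pow_succ]
        ring
    · -- the value at `f` is forced and equal to `t f`
      have hcnt : cnt F e t A (insert f R) = 0 := by
        apply cnt_eq_zero
        intro x hx
        by_contra h
        exact hOK ⟨x, fun a ha _ => hx a ha, h⟩
      rw [hcnt]
      have h1 : (∑ B ∈ R.powerset, if (spanClo F e).Ind (B ∪ A) ∧
          ∀ g ∈ insert f R, OK (F := F) e t (B ∪ A) g then
            (-(Nat.card T : ℝ)⁻¹) ^ B.card else 0) = 0 := by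
        apply Finset.sum_eq_zero
        intro B hB
        rw [if_neg]
        rintro ⟨_, h2⟩
        apply hOK
        exact (hOKf B ((Finset.mem_powerset.mp hB).trans (Finset.subset_insert _ _))).mp
          (h2 f (Finset.mem_insert_self _ _))
      have h2 : (∑ B ∈ R.powerset, if (spanClo F e).Ind (insert f B ∪ A) ∧
          ∀ g ∈ insert f R, OK (F := F) e t (insert f B ∪ A) g then
            (-(Nat.card T : ℝ)⁻¹) ^ (insert f B).card else 0) = 0 := by
        apply Finset.sum_eq_zero
        intro B hB
        rw [if_neg]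
        rintro ⟨_, h2⟩
        apply hOK
        exact (hOKf (insert f B) (Finset.insert_subset_insert _ (Finset.mem_powerset.mp hB))).mp
          (h2 f (Finset.mem_insert_self _ _))
      rw [h1, h2]
      simp

/-- The number of avoiding maps is a signed face sum. -/
theorem cnt_eq_Z (e : ι → V) (t : ι → T) (hT : 2 ≤ Nat.card T) (S : Finset ι) :
    (cnt F e t ∅ S : ℝ) = (cnt F e t ∅ ∅ : ℝ) *
      Gas.Z (Face F e t S) ((Nat.card T : ℝ)⁻¹) ∅ S := by
  rw [cnt_expand e t hT S ∅ Clo.ind_empty (fun a ha => absurd ha (Finset.notMem_empty a)),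
    Finset.card_empty, pow_zero, one_mul]
  unfold Gas.Z Face
  congr 1
  apply Finset.sum_congr rfl
  intro B _
  by_cases h : ((spanClo F e).Ind (B ∪ ∅) ∧ ∀ f ∈ S, OK (F := F) e t (B ∪ ∅) f)
  · rw [if_pos h, if_pos h]
  · rw [if_neg h, if_neg h]

open Classical in
/-- **Avoiding prescribed values, for families with few independent sets without coloops.** -/
theorem exists_avoid_of_noCol [Fintype ι] (e : ι → V) (t : ι → T) (hT : 4 ≤ Nat.card T)
    (S : Finset ι) (hS : ∀ i ∈ S, e i ≠ 0) (y : ℝ) (hy : 0 ≤ y) (hy1 : y ≤ 4)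
    (hA : ∀ L : Finset ι, (∑ D ∈ Finset.univ.filter
      (fun D : Finset ι => (spanClo F e).Ind D ∧ (spanClo F e).NoCol L D),
        y ^ D.card) ≤ 2 ^ L.card)
    (hlam : 8 * (Nat.card T : ℝ)⁻¹ ≤ (y / 4) ^ 2) :
    ∃ x : V →ₗ[F] T, ∀ i ∈ S, x (e i) ≠ t i := by
  have hQ4 : (4 : ℝ) ≤ Nat.card T := by exact_mod_cast hT
  have hQ0 : (0 : ℝ) < Nat.card T := by linarith
  have hlam4 : (Nat.card T : ℝ)⁻¹ ≤ 1 / 4 := by
    rw [inv_eq_one_div]
    exact one_div_le_one_div_of_le (by norm_num) hQ4
  have hlam0 : (0 : ℝ) ≤ (Nat.card T : ℝ)⁻¹ := by positivity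
  have hempty : Face F e t S ∅ := by
    refine ⟨Clo.ind_empty, ?_⟩
    intro f hf
    have h1 : e f ∉ (⊥ : Submodule F V) := by
      intro h
      exact hS f hf (by simpa using h)
    have h2 : ∃ s : T, s ≠ t f := by
      by_contra h
      push Not at h
      have h3 : Nat.card T ≤ 1 := by
        have : Subsingleton T := ⟨fun a b => (h a).trans (h b).symm⟩
        exact Finite.card_le_one_iff_subsingleton.mpr this
      omega
    obtain ⟨s, hs⟩ := h2
    obtain ⟨x, _, hx⟩ := exists_modify ⊥ (e f) h1 (0 : V →ₗ[F] T) s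
    refine ⟨x, fun a ha => absurd ha (Finset.notMem_empty a), ?_⟩
    rw [hx]
    exact hs
  have hZ := (Gas.Z_bounds (I := Face F e t S) (fun A B hAB hB => hB.mono hAB) hempty
    ((Nat.card T : ℝ)⁻¹) hlam0 hlam4 S (by
      intro L _ _ P hP
      apply Clo.cov_sum y hy hy1 hA L P _ _ (by positivity) hlam
      intro B hB
      obtain ⟨_, h2, h3, h4⟩ := hP B hB
      exact ⟨h2.1, h3, cov_of_covI h4⟩) S subset_rfl).1
  have hpos : 0 < cnt F e t ∅ ∅ := by
    unfold cnt
    have hfin : Finite (V →ₗ[F] T) := DFunLike.finite _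
    rw [Set.ncard_pos (Set.toFinite _)]
    refine ⟨0, ?_⟩
    simp
  have h1 : (0 : ℝ) < cnt F e t ∅ S := by
    rw [cnt_eq_Z e t (by omega) S]
    have : (0 : ℝ) < cnt F e t ∅ ∅ := by exact_mod_cast hpos
    positivity
  have h2 : 0 < cnt F e t ∅ S := by exact_mod_cast h1
  unfold cnt at h2
  have hfin : Finite (V →ₗ[F] T) := DFunLike.finite _
  rw [Set.ncard_pos (Set.toFinite _)] at h2
  obtain ⟨x, _, hx⟩ := h2
  exact ⟨x, hx⟩

end

end Pool.Agent.Helper91.Crit
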